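import Mathlib
import Pool.Agent.Lib.H55R.HD

/-!
# H55K part A (port of H99B): the abstract theorem of Kolyvagin and Rubin over an arbitrary base field F (definitions)

L/F is a finite Galois extension with group Δ = Gal(L/F), χ : Δ → kˣ is bijective, k a finite field of
characteristic l. See PROOF.md.
-/

open NumberField IsDedekindDomain

namespace H55K.Ab

open H55R

variable {F : Type} [Field F] [NumberField F]

section lin

/-- A linear form ρ on k with sum over c of ρ(a/c) c = -a. -/
structure IsRho (l : ℕ) {k : Type} [Field k] [Fintype k] [DecidableEq k] (ρ : k →+ ZMod l) :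
    Prop where
  sum : ∀ a : k, ∑ c : kˣ, ((ρ (a * (c⁻¹ : kˣ))).val : k) * (c : k) = -a

variable {l : ℕ} {k : Type} [Field k]

/-- The exponents of the group ring element M_a. -/
def cf {D : Type} [Group D] (χ : D →* kˣ) (ρ : k →+ ZMod l) (a : k) (d : D) : ℤ :=
  ((ρ (a * ((χ d)⁻¹ : kˣ))).val : ℤ)

variable {G : Type} [Group G] [Fintype G]

/-- The action of the integral group ring on a multiplicative group. -/
noncomputable def pw {A : Type} [CommGroup A] (ac : G →* Monoid.End A) (α : G → ℤ) (x : A) : A :=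
  ∏ g, (ac g x) ^ α g

/-- The action of the integral group ring on an additive group. -/
noncomputable def pa {A : Type} [AddCommGroup A] (ac : G →* AddMonoid.End A) (α : G → ℤ) (x : A) :
    A :=
  ∑ g, α g • ac g x

/-- The product of the group ring. -/
def conv (α β : G → ℤ) : G → ℤ := fun g => ∑ h, α h * β (h⁻¹ * g)

/-- The ring homomorphism from the integral group ring to k given by χ. -/
def chs (χ : G →* kˣ) (α : G → ℤ) : k := ∑ g, (α g : k) * (χ g : k)

end lin

section act

variable {L : Type} [Field L] [NumberField L] [Algebra F L]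

/-- The Galois action on the multiplicative group of L. -/
noncomputable def gu : Gal(L/F) →* Monoid.End Lˣ where
  toFun σ := Units.map ((σ : L ≃ₐ[F] L) : L →* L)
  map_one' := by
    ext x
    rfl
  map_mul' σ τ := by
    ext x
    rfl

theorem gu_apply (σ : Gal(L/F)) (x : Lˣ) : ((gu σ x : Lˣ) : L) = σ (x : L) := rfl

variable {l : ℕ} {k : Type} [Field k]

/-- The element M_a x. -/
noncomputable def eta (χ : Gal(L/F) →* kˣ) (ρ : k →+ ZMod l) (a : k) (x : Lˣ) : Lˣ :=
  pw gu (cf χ ρ a) x

/-- Equivariant homomorphisms from k to Lˣ modulo l-th powers, given by representatives. -/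
structure EqHom (l : ℕ) (χ : Gal(L/F) →* kˣ) (m : k → Lˣ) : Prop where
  add : ∀ a b : k, ∃ z : Lˣ, m (a + b) = m a * m b * z ^ l
  equiv : ∀ (σ : Gal(L/F)) (a : k), ∃ z : Lˣ, m (χ σ * a) = gu σ (m a) * z ^ l

/-- The level one component at w is trivial: x is an l-th power times an element congruent to 1 modulo
the square of w. -/
def Lev (l : ℕ) (w : Pl L) (x : Lˣ) : Prop :=
  ∃ z : Lˣ, w.valuation L (((x * (z ^ l)⁻¹ : Lˣ) : L) - 1) ≤ WithZero.exp (-2 : ℤ)

/-- x is an l-th power modulo v (x prime to v). -/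
def PowMod (l : ℕ) (v : Pl L) (x : Lˣ) : Prop :=
  ∃ z : Lˣ, v.valuation L (((x * (z ^ l)⁻¹ : Lˣ) : L) - 1) < 1

end act

section cls

variable {L : Type} [Field L] [NumberField L] [Algebra F L] {k : Type} [Field k]

/-- Functions on the primes of L given by the equivariant homomorphisms from the class group of L to k. -/
structure IsTh (χ : Gal(L/F) →* kˣ) (θ : Pl L → k) : Prop where
  equiv : ∀ (σ : Gal(L/F)) (v : Pl L), θ (smulP σ v) = χ σ * θ v
  princ : ∀ x : Lˣ, ∑ᶠ v : Pl L, (ord v x : k) * θ v = 0

end cls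

section loc

variable {L : Type} [Field L] [NumberField L] [Algebra F L] {k : Type} [Field k]

/-- Local data at the totally ramified prime w of L: r is the reduction modulo w with values in k, every
element of k is the reduction of an element of 𝓞 F, t is a uniformizer on which the Galois group acts through
χ modulo the square of w. -/
structure Loc (χ : Gal(L/F) →* kˣ) (w : Pl L) (t : Lˣ) (r : 𝓞 L →+* k) : Prop where
  ker : ∀ x : 𝓞 L, r x = 0 ↔ x ∈ w.asIdeal
  surj : ∀ b : k, ∃ y : 𝓞 F, r (algebraMap (𝓞 F) (𝓞 L) y) = b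
  ram : ∀ y : 𝓞 F, r (algebraMap (𝓞 F) (𝓞 L) y) = 0 →
    w.valuation L (algebraMap F L (y : F)) ≤ WithZero.exp (-2 : ℤ)
  inv : ∀ σ : Gal(L/F), smulP σ w = w
  unif : ord w t = 1
  act : ∀ (σ : Gal(L/F)) (y : 𝓞 F), r (algebraMap (𝓞 F) (𝓞 L) y) = χ σ →
    w.valuation L (σ (t : L) - algebraMap F L (y : F) * (t : L)) ≤ WithZero.exp (-2 : ℤ)

end loc

section thaine

/-- The auxiliary field of Kolyvagin and Thaine for the prime Q of L: B/L is cyclic of degree q - 1,
q = N Q, totally tamely ramified at the conjugates of Q, with one element t which is a uniformizer at all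
these primes and on which the Galois group acts through the character κ (modulo squares), unramified outside
the conjugates of Q; al is a unit of B, of norm 1, congruent to ξ at the primes above the
conjugates of Q. -/
structure Aux (F L : Type) [Field F] [NumberField F] [Field L] [NumberField L] [Algebra F L] (Q : Pl L)
    (ξ : Lˣ) (B : Type) [Field B] [NumberField B] [Algebra L B] (κ : Gal(B/L) → ℤ) (t al : Bˣ) :
    Prop where
  gal : IsGalois L B
  cyc : IsCyclic Gal(B/L)
  card : Nat.card Gal(B/L) = Ideal.absNorm Q.asIdeal - 1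
  ram : ∀ σ : Gal(L/F), es L B (smulP σ Q) = Ideal.absNorm Q.asIdeal - 1
  unr : ∀ v : Pl L, (∀ σ : Gal(L/F), v ≠ smulP σ Q) → es L B v = 1
  unif : ∀ (σ : Gal(L/F)) (W : Pl B), W.under (𝓞 L) = smulP σ Q → ord W t = 1
  tame : ∀ (σ : Gal(L/F)) (W : Pl B), W.under (𝓞 L) = smulP σ Q → ∀ g : Gal(B/L),
    W.valuation B (g (t : B) - κ g * (t : B)) ≤ WithZero.exp (-2 : ℤ)
  norm : Algebra.norm L (al : B) = 1
  unit : ∀ W : Pl B, ord W al = 0
  congr : ∀ (σ : Gal(L/F)) (W : Pl B), W.under (𝓞 L) = smulP σ Q →
    W.valuation B ((al : B) - algebraMap L B (ξ : L)) < 1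

end thaine

end H55K.Ab
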