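import Mathlib
import Pool.Agent.Lib.H55K.A.Defs

/-!
Chunk A1 (M, pure Mathlib). The trace form.
PROOF. k is a finite field of characteristic l, so it is an algebra over ZMod l (ZMod.algebra k l; use letI), q = card k = l^f,
f = finrank (ZMod l) k. ρ = Algebra.trace (ZMod l) k as an additive map. FiniteField.algebraMap_trace_eq_sum_pow (or the statement with this
content): algebraMap (Tr x) = sum over i < f of x^(l^i). The cast of (ρ b).val to k is algebraMap (ZMod l) k (ρ b) (ZMod.natCast_val / ZMod.cast_id /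
map_natCast). Hence the sum is sum_{i<f} sum_c (a c^-1)^(l^i) c = sum_{i<f} a^(l^i) sum_c c^(1 - l^i). The term i = 0 is a (q - 1) = -a.
For 0 < i < f: sum_c c^(1-l^i) = sum_c (c^-1)^(l^i - 1) = 0 by FiniteField.sum_pow_units, because q - 1 does not divide l^i - 1
(0 < l^i - 1 < q - 1; l >= 2).
-/

namespace H55K.Ab

theorem a1_inner {k : Type} [Field k] [Fintype k] [DecidableEq k] (m : ℕ) (hm : 0 < m) :
    ∑ c : kˣ, ((c⁻¹ : kˣ) : k) ^ m * (c : k) = if Fintype.card k - 1 ∣ m - 1 then -1 else 0 := by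
  rw [← FiniteField.sum_pow_units k (m - 1), ← Equiv.sum_comp (Equiv.inv kˣ) (fun c : kˣ => (c : k) ^ (m - 1))]
  refine Finset.sum_congr rfl fun c _ => ?_
  rw [Equiv.inv_apply]
  obtain ⟨r, rfl⟩ : ∃ r, m = r + 1 := ⟨m - 1, by omega⟩
  rw [Nat.add_sub_cancel, pow_succ, mul_assoc, Units.inv_mul, mul_one]

theorem exists_rho (l : ℕ) [Fact l.Prime] (k : Type) [Field k] [Fintype k] [DecidableEq k]
    [CharP k l] : ∃ ρ : k →+ ZMod l, IsRho l ρ := by
  have hl : l.Prime := Fact.out
  let _ := ZMod.algebra k l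
  have hNe : NeZero l := ⟨hl.ne_zero⟩
  refine ⟨(Algebra.trace (ZMod l) k).toAddMonoidHom, ⟨fun a => ?_⟩⟩
  set f := Module.finrank (ZMod l) k with hf
  have hcard : Fintype.card k = l ^ f := by
    have h := Module.card_eq_pow_finrank (K := ZMod l) (V := k)
    rwa [ZMod.card] at h
  have hf0 : 0 < f := Module.finrank_pos
  have h1 : ∀ b : k, (((Algebra.trace (ZMod l) k).toAddMonoidHom b).val : k) = ∑ i ∈ Finset.range f, b ^ (l ^ i) := by
    intro b
    have h2 := FiniteField.algebraMap_trace_eq_sum_pow (ZMod l) k b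
    rw [Nat.card_zmod] at h2
    rw [← h2]
    have h3 := ZMod.natCast_zmod_val (Algebra.trace (ZMod l) k b)
    conv_rhs => rw [← h3]
    rw [map_natCast]
    rfl
  simp only [h1, Finset.sum_mul]
  rw [Finset.sum_comm]
  have h2 : ∀ i ∈ Finset.range f, ∑ c : kˣ, (a * ((c⁻¹ : kˣ) : k)) ^ (l ^ i) * (c : k) =
      if i = 0 then -a else 0 := by
    intro i hi
    have h3 : ∑ c : kˣ, (a * ((c⁻¹ : kˣ) : k)) ^ (l ^ i) * (c : k) =
        a ^ (l ^ i) * ∑ c : kˣ, ((c⁻¹ : kˣ) : k) ^ (l ^ i) * (c : k) := by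
      rw [Finset.mul_sum]
      refine Finset.sum_congr rfl fun c _ => ?_
      rw [mul_pow]
      ring
    rw [h3, a1_inner _ (pow_pos hl.pos i)]
    by_cases h0 : i = 0
    · subst h0
      simp
    · rw [if_neg h0, if_neg, mul_zero]
      intro hd
      have hi' := Finset.mem_range.1 hi
      have h4 : l ^ i < l ^ f := Nat.pow_lt_pow_right hl.one_lt hi'
      have h5 : 1 < l ^ i := Nat.one_lt_pow h0 hl.one_lt
      have h6 := Nat.le_of_dvd (by omega) hd
      rw [hcard] at h6
      omega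
  rw [Finset.sum_congr rfl h2, Finset.sum_ite_eq' , if_pos (Finset.mem_range.2 hf0)]

end H55K.Ab
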