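import Mathlib
import Pool.Agent.Lib.H55K.A.Defs

/-!
Chunk A2 (S/M). Rules for pw (action of the integral group ring on a multiplicative group), conv and chs.
PROOFS. pw_mul, pw_npow, pw_add, pw_smul: Finset.prod_mul_distrib, map_mul, zpow_add, zpow_mul. pw_conv: expand
pw ac α (pw ac β x) = prod_h ac h (prod_g (ac g x)^(β g))^(α h) = prod_h prod_g (ac (h g) x)^(α h β g) (map_prod, map_zpow for the monoid endomorphism ac h,
ac (h g) = ac h * ac g), substitute g -> h⁻¹ g (Equiv.mulLeft), exchange the products, collect exponents. chs_conv: the same computation in k with χ (h g) = χ h χ g.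
chs_single: one term. chs_el: IsRho for a = -1 (IsRho.sum) transported along the bijection χ: chs χ (cf χ ρ a) = sum_g ρ(a χ(g)⁻¹).val χ(g) =
sum_c ρ(a c⁻¹).val c = -a. el_conv: for g: (conv α β)(g) with α = cf χ ρ (-1), modulo l: substitute h -> g h⁻¹ : the sum of α(g h⁻¹) β(h), and in ZMod l:
α(g h⁻¹) = ρ(-(χ g)⁻¹ χ h) (ZMod.natCast_zmod_val), ρ additive, so the sum is ρ(-(χ g)⁻¹ * sum_h β(h) χ(h)) = ρ 0 = 0; (ZMod.intCast_zmod_eq_zero_iff_dvd).
-/

namespace H55K.Ab

variable {G : Type} [Group G] [Fintype G] {A : Type} [CommGroup A] (ac : G →* Monoid.End A)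

omit [Group G] [Fintype G] in
theorem a2_zsum (s : Finset G) (f : G → ℤ) (x : A) : x ^ (∑ h ∈ s, f h) = ∏ h ∈ s, x ^ f h := by
  classical
  induction s using Finset.induction_on with
  | empty => simp
  | insert a s ha ih => rw [Finset.sum_insert ha, Finset.prod_insert ha, zpow_add, ih]

theorem pw_mul (α : G → ℤ) (x y : A) : pw ac α (x * y) = pw ac α x * pw ac α y := by
  unfold pw
  rw [← Finset.prod_mul_distrib]
  refine Finset.prod_congr rfl fun g _ => ?_
  rw [map_mul, mul_zpow]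

theorem pw_zpow (α : G → ℤ) (x : A) (n : ℤ) : pw ac α (x ^ n) = pw ac α x ^ n := by
  unfold pw
  rw [← Finset.prod_zpow]
  refine Finset.prod_congr rfl fun g _ => ?_
  rw [map_zpow, ← zpow_mul, ← zpow_mul, mul_comm]

theorem pw_pow (α : G → ℤ) (x : A) (n : ℕ) : pw ac α (x ^ n) = pw ac α x ^ n := by
  have h := pw_zpow ac α x n
  rwa [zpow_natCast, zpow_natCast] at h

theorem pw_inv (α : G → ℤ) (x : A) : pw ac α x⁻¹ = (pw ac α x)⁻¹ := by
  have h := pw_zpow ac α x (-1)
  rwa [zpow_neg_one, zpow_neg_one] at h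

theorem pw_smul (α : G → ℤ) (x : A) (n : ℤ) : pw ac (fun g => n * α g) x = pw ac α x ^ n := by
  unfold pw
  rw [← Finset.prod_zpow]
  refine Finset.prod_congr rfl fun g _ => ?_
  rw [← zpow_mul, mul_comm]

theorem pw_conv (α β : G → ℤ) (x : A) : pw ac (conv α β) x = pw ac α (pw ac β x) := by
  have h1 : ∀ h : G, (ac h (pw ac β x)) ^ α h = ∏ g, (ac g x) ^ (α h * β (h⁻¹ * g)) := by
    intro h
    unfold pw
    rw [map_prod, ← Finset.prod_zpow, ← Equiv.prod_comp (Equiv.mulLeft h) (fun g => (ac g x) ^ (α h * β (h⁻¹ * g)))]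
    refine Finset.prod_congr rfl fun g _ => ?_
    rw [map_zpow, ← zpow_mul, Equiv.coe_mulLeft, inv_mul_cancel_left, mul_comm (β g), map_mul]
    rfl
  unfold conv
  change ∏ g, (ac g x) ^ (∑ h, α h * β (h⁻¹ * g)) = ∏ h, (ac h (pw ac β x)) ^ α h
  simp only [h1]
  rw [Finset.prod_comm]
  refine Finset.prod_congr rfl fun g _ => ?_
  rw [a2_zsum]

theorem pw_ac (α : G → ℤ) (x : A) (g : G) (hc : ∀ a b : G, a * b = b * a) :
    pw ac α (ac g x) = ac g (pw ac α x) := by
  unfold pw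
  rw [map_prod]
  refine Finset.prod_congr rfl fun h _ => ?_
  rw [map_zpow]
  congr 1
  have h1 : ac h (ac g x) = ac (h * g) x := by rw [map_mul]; rfl
  have h2 : ac g (ac h x) = ac (g * h) x := by rw [map_mul]; rfl
  rw [h1, h2, hc]

/-- Elements of finite order are stable. -/
theorem pw_fin (α : G → ℤ) (x : A) (hx : IsOfFinOrder x) : IsOfFinOrder (pw ac α x) := by
  unfold pw
  refine Subgroup.prod_mem (CommGroup.torsion A) fun g _ => ?_
  refine Subgroup.zpow_mem _ ?_ _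
  exact MonoidHom.isOfFinOrder (ac g : A →* A) hx

variable {l : ℕ} [Fact l.Prime] {k : Type} [Field k] (χ : G →* kˣ)

omit [Fact l.Prime] in
theorem chs_conv (α β : G → ℤ) : chs χ (conv α β) = chs χ α * chs χ β := by
  unfold chs conv
  rw [Finset.sum_mul]
  have h1 : ∀ h : G, (α h : k) * (χ h : k) * ∑ g, (β g : k) * (χ g : k) =
      ∑ g, (α h : k) * (β (h⁻¹ * g) : k) * (χ g : k) := by
    intro h
    rw [Finset.mul_sum, ← Equiv.sum_comp (Equiv.mulLeft h) (fun g => (α h : k) * (β (h⁻¹ * g) : k) * (χ g : k))]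
    refine Finset.sum_congr rfl fun g _ => ?_
    rw [Equiv.coe_mulLeft, inv_mul_cancel_left, map_mul, Units.val_mul]
    ring
  simp only [h1]
  rw [Finset.sum_comm]
  refine Finset.sum_congr rfl fun g _ => ?_
  rw [Int.cast_sum, Finset.sum_mul]
  refine Finset.sum_congr rfl fun h _ => ?_
  rw [Int.cast_mul]

theorem conv_comm (hc : ∀ a b : G, a * b = b * a) (α β : G → ℤ) : conv α β = conv β α := by
  funext g
  unfold conv
  rw [← Equiv.sum_comp ((Equiv.inv G).trans (Equiv.mulLeft g)) (fun h => α h * β (h⁻¹ * g))]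
  refine Finset.sum_congr rfl fun h _ => ?_
  simp only [Equiv.trans_apply, Equiv.inv_apply, Equiv.coe_mulLeft, mul_inv_rev, inv_inv]
  rw [mul_comm, hc g h⁻¹, mul_assoc, inv_mul_cancel, mul_one]

theorem chs_single [DecidableEq G] (g : G) : chs χ (Pi.single g 1) = χ g := by
  unfold chs
  rw [Finset.sum_eq_single g]
  · rw [Pi.single_eq_same, Int.cast_one, one_mul]
  · intro h _ hh
    rw [Pi.single_eq_of_ne hh, Int.cast_zero, zero_mul]
  · intro h
    exact absurd (Finset.mem_univ g) h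

theorem pw_single [DecidableEq G] (g : G) (x : A) : pw ac (Pi.single g 1) x = ac g x := by
  unfold pw
  rw [Finset.prod_eq_single g]
  · rw [Pi.single_eq_same, zpow_one]
  · intro h _ hh
    rw [Pi.single_eq_of_ne hh, zpow_zero]
  · intro h
    exact absurd (Finset.mem_univ g) h

variable [Fintype k] [DecidableEq k] [CharP k l] (ρ : k →+ ZMod l)

theorem chs_nn (hχ : Function.Bijective χ) (hρ : IsRho l ρ) (a : k) :
    chs χ (cf χ ρ a) = -a := by
  rw [← hρ.sum a]
  unfold chs cf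
  rw [← Equiv.sum_comp (Equiv.ofBijective χ hχ) (fun c : kˣ => ((ρ (a * (c⁻¹ : kˣ))).val : k) * (c : k))]
  refine Finset.sum_congr rfl fun g _ => ?_
  rw [Equiv.ofBijective_apply, Int.cast_natCast]

theorem el_conv (β : G → ℤ) (hβ : chs χ β = 0) (g : G) :
    (l : ℤ) ∣ conv (cf χ ρ (-1)) β g := by
  have : NeZero l := ⟨(Fact.out : l.Prime).ne_zero⟩
  rw [← ZMod.intCast_zmod_eq_zero_iff_dvd]
  unfold conv
  rw [← Equiv.sum_comp ((Equiv.inv G).trans (Equiv.mulLeft g)) (fun h => cf χ ρ (-1) h * β (h⁻¹ * g)), Int.cast_sum]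
  have h1 : ∀ h : G, ((cf χ ρ (-1) (((Equiv.inv G).trans (Equiv.mulLeft g)) h) *
      β ((((Equiv.inv G).trans (Equiv.mulLeft g)) h)⁻¹ * g) : ℤ) : ZMod l) =
      ρ (-((χ g)⁻¹ : kˣ) * ((β h : k) * (χ h : k))) := by
    intro h
    simp only [Equiv.trans_apply, Equiv.inv_apply, Equiv.coe_mulLeft, mul_inv_rev, inv_inv]
    rw [mul_assoc, inv_mul_cancel, mul_one]
    unfold cf
    rw [Int.cast_mul, Int.cast_natCast, ZMod.natCast_zmod_val]
    have e : -((χ g)⁻¹ : kˣ) * ((β h : k) * (χ h : k)) = (β h) • (-1 * (((χ (g * h⁻¹))⁻¹ : kˣ) : k)) := by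
      rw [zsmul_eq_mul, map_mul, map_inv, mul_inv_rev, inv_inv, Units.val_mul]
      ring
    rw [e, map_zsmul, zsmul_eq_mul, mul_comm]
  rw [Finset.sum_congr rfl fun h _ => h1 h, ← map_sum, ← Finset.mul_sum]
  have h2 : ∑ h, (β h : k) * (χ h : k) = 0 := hβ
  rw [h2, mul_zero, map_zero]

end H55K.Ab
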