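import Mathlib
import Pool.Agent.Lib.H55K.A.A2
import Pool.Agent.Lib.H55R.BF1
import Pool.Agent.Lib.H55R.HB1

/-!
Chunk E1 (M). The level one component of eta_a(ξ) is not trivial.
PROOF. Notation: v = the order at w (valuation exp(-n)); x ≡ y means that x - y has order at least 2. Lifts: for b : k let b' ∈ 𝓞 F with r b' = b (Loc.surj). ξ = a0 (1 + c t + O(2)), c, a0 in F,
c of order 0 at w. σ ξ = a0 (1 + c σ t + O(2)) (σ w = w, so σ preserves the order: ord_smul) ≡ a0 (1 + c (χ σ)' t) up to the factor a0 (Loc.act). So, with n σ = cf χ ρ a σ and N = sum n σ: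
eta χ ρ a ξ = prod (σ ξ)^(n σ) = a0^N (1 + c t sum n σ (χ σ)' + O(2)) (products of elements 1 + O(1): (1+x)(1+y) ≡ 1 + x + y), and r(sum n σ (χ σ)') = chs χ (cf χ ρ a) = -a (chs_nn), so
with e ∈ 𝓞 F, r e = -a c ≠ 0: eta = a0^N (1 + e t + O(2)) (an element of 𝓞 F with r = 0 has order at least 2: Loc.ram).
l divides N: in ZMod l: N = sum_σ ρ(a χ(σ)⁻¹) = ρ(a sum_{c ∈ kˣ} c⁻¹) = ρ 0 = 0 (FiniteField.sum_pow_units or sum_units_eq_zero-type lemma; card k > 2). N = l N'.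
Suppose Lev: eta = z^l (1 + O(2)). With y = z / a0^N': y^l = 1 + e t + O(2). Then y has order 0. There is y0 ∈ 𝓞 F with v(y - y0) ≥ 1 (y is a fraction of elements of 𝓞 L prime to w,
H55R.exists_frac; reduce them by Loc.surj), y0 of order 0. y = y0 (1 + s), v(s) ≥ 1, and (1 + s)^l ≡ 1: the binomial terms are l s (..), order ≥ 2 because l ∈ 𝓞 F, r l = 0 (CharP k l, Loc.ram),
and s^l, order ≥ l ≥ 2 (use (1+s)^l = 1 + l s g + s^l with g integral at w: e.g. add_pow_prime / exists_add_pow_prime_eq). So y0^l ≡ 1 + e t. Hence v(y0^l - 1) ≥ 1, y0^l - 1 ∈ 𝓞 F, r(..) = 0 (Loc.ker), so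
y0^l - 1 has order ≥ 2 (Loc.ram), so e t has order ≥ 2; but its order is 1 (r e ≠ 0, Loc.unif). Contradiction.
-/

open NumberField IsDedekindDomain

namespace H55K.Ab

open H55R

variable {F : Type} [Field F] [NumberField F]

open scoped WithZero

/-- Products of elements congruent to 1 + e t. -/
theorem e1_mul {L : Type} [Field L] (v : Valuation L ℤᵐ⁰) {t x y e f : L}
    (ht : v t ≤ WithZero.exp (-1 : ℤ)) (he : v e ≤ 1) (hf : v f ≤ 1)
    (hx : v (x - 1 - e * t) ≤ WithZero.exp (-2 : ℤ)) (hy : v (y - 1 - f * t) ≤ WithZero.exp (-2 : ℤ)) :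
    v (x * y - 1 - (e + f) * t) ≤ WithZero.exp (-2 : ℤ) := by
  have h21 : WithZero.exp (-2 : ℤ) ≤ (1 : ℤᵐ⁰) := by
    rw [← WithZero.exp_zero, WithZero.exp_le_exp]
    norm_num
  have h11 : WithZero.exp (-1 : ℤ) ≤ (1 : ℤᵐ⁰) := by
    rw [← WithZero.exp_zero, WithZero.exp_le_exp]
    norm_num
  have ht1 : v t ≤ 1 := ht.trans h11
  have hy1 : v y ≤ 1 := by
    have e1 : y = (y - 1 - f * t) + (1 + f * t) := by ring
    rw [e1]
    refine v.map_add_le (hy.trans h21) (v.map_add_le (by rw [map_one]) ?_)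
    rw [map_mul]
    exact mul_le_one' hf ht1
  have e2 : x * y - 1 - (e + f) * t = (x - 1 - e * t) * y + (1 + e * t) * (y - 1 - f * t) +
      e * f * (t * t) := by ring
  rw [e2]
  refine v.map_add_le (v.map_add_le ?_ ?_) ?_
  · rw [map_mul]
    calc v (x - 1 - e * t) * v y ≤ WithZero.exp (-2 : ℤ) * 1 := mul_le_mul' hx hy1
      _ = _ := mul_one _
  · rw [map_mul]
    have h3 : v (1 + e * t) ≤ 1 := by
      refine v.map_add_le (by rw [map_one]) ?_
      rw [map_mul]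
      exact mul_le_one' he ht1
    calc v (1 + e * t) * v (y - 1 - f * t) ≤ 1 * WithZero.exp (-2 : ℤ) := mul_le_mul' h3 hy
      _ = _ := one_mul _
  · rw [map_mul, map_mul, map_mul]
    calc v e * v f * (v t * v t) ≤ 1 * (WithZero.exp (-1 : ℤ) * WithZero.exp (-1 : ℤ)) :=
          mul_le_mul' (mul_le_one' he hf) (mul_le_mul' ht ht)
      _ = WithZero.exp (-2 : ℤ) := by
          rw [one_mul, ← WithZero.exp_add]
          norm_num

theorem e1_pow {L : Type} [Field L] (v : Valuation L ℤᵐ⁰) {t x e : L}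
    (ht : v t ≤ WithZero.exp (-1 : ℤ)) (he : v e ≤ 1)
    (hx : v (x - 1 - e * t) ≤ WithZero.exp (-2 : ℤ)) (n : ℕ) :
    v (x ^ n - 1 - ((n : L) * e) * t) ≤ WithZero.exp (-2 : ℤ) ∧ v ((n : L) * e) ≤ 1 := by
  induction n with
  | zero =>
    have : x ^ 0 - 1 - (((0 : ℕ) : L) * e) * t = 0 := by
      rw [Nat.cast_zero]
      ring
    rw [this, map_zero]
    refine ⟨zero_le, ?_⟩
    rw [Nat.cast_zero, zero_mul, map_zero]
    exact zero_le
  | succ n ih =>
    obtain ⟨h1, h2⟩ := ih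
    have h3 : (((n + 1 : ℕ) : L) * e) = (n : L) * e + e := by
      push_cast
      ring
    rw [h3, pow_succ]
    exact ⟨e1_mul v ht h2 he h1 hx, v.map_add_le h2 he⟩

theorem e1_prod {L : Type} [Field L] (v : Valuation L ℤᵐ⁰) {ι : Type} [DecidableEq ι]
    (s : Finset ι) {t : L} (x e : ι → L) (n : ι → ℕ)
    (ht : v t ≤ WithZero.exp (-1 : ℤ)) (he : ∀ i ∈ s, v (e i) ≤ 1)
    (hx : ∀ i ∈ s, v (x i - 1 - e i * t) ≤ WithZero.exp (-2 : ℤ)) :
    v (∏ i ∈ s, x i ^ n i - 1 - (∑ i ∈ s, (n i : L) * e i) * t) ≤ WithZero.exp (-2 : ℤ) ∧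
      v (∑ i ∈ s, (n i : L) * e i) ≤ 1 := by
  induction s using Finset.induction_on with
  | empty =>
    rw [Finset.prod_empty, Finset.sum_empty, sub_self, zero_mul, sub_zero, map_zero]
    exact ⟨zero_le, zero_le⟩
  | insert i s hi ih =>
    obtain ⟨h1, h2⟩ := ih (fun j hj => he j (Finset.mem_insert_of_mem hj))
      (fun j hj => hx j (Finset.mem_insert_of_mem hj))
    obtain ⟨h3, h4⟩ := e1_pow v ht (he i (Finset.mem_insert_self i s)) (hx i (Finset.mem_insert_self i s)) (n i)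
    rw [Finset.prod_insert hi, Finset.sum_insert hi]
    exact ⟨e1_mul v ht h4 h2 h3 h1, v.map_add_le h4 h2⟩

/-- The l-th power of y0 + s. -/
theorem e1_lpow {L : Type} [Field L] (v : Valuation L ℤᵐ⁰) {l : ℕ} (hl : l.Prime)
    (hvl : v (l : L) ≤ WithZero.exp (-2 : ℤ)) {y s : L} (hy : v y ≤ 1)
    (hs : v s ≤ WithZero.exp (-1 : ℤ)) : v ((y + s) ^ l - y ^ l) ≤ WithZero.exp (-2 : ℤ) := by
  have h11 : WithZero.exp (-1 : ℤ) ≤ (1 : ℤᵐ⁰) := by
    rw [← WithZero.exp_zero, WithZero.exp_le_exp]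
    norm_num
  have hs1 : v s ≤ 1 := hs.trans h11
  obtain ⟨r, hr⟩ := exists_add_pow_prime_eq hl (⟨y, hy⟩ : v.integer) (⟨s, hs1⟩ : v.integer)
  have hr2 := congrArg (Subtype.val) hr
  have hr3 : (y + s) ^ l = y ^ l + s ^ l + (l : L) * y * s * (r : L) := by
    push_cast at hr2
    exact hr2
  have e1 : (y + s) ^ l - y ^ l = s ^ l + (l : L) * (y * s * (r : L)) := by
    rw [hr3]
    ring
  rw [e1]
  refine v.map_add_le ?_ ?_
  · rw [map_pow]
    calc v s ^ l ≤ v s ^ 2 := pow_le_pow_right_of_le_one' hs1 hl.two_le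
      _ ≤ (WithZero.exp (-1 : ℤ)) ^ 2 := pow_le_pow_left₀ zero_le hs 2
      _ = WithZero.exp (-2 : ℤ) := by
        rw [sq, ← WithZero.exp_add]
        norm_num
  · rw [map_mul]
    have h3 : v (y * s * (r : L)) ≤ 1 := by
      rw [map_mul, map_mul]
      exact mul_le_one' (mul_le_one' hy hs1) r.2
    calc v (l : L) * v (y * s * (r : L)) ≤ WithZero.exp (-2 : ℤ) * 1 := mul_le_mul' hvl h3
      _ = _ := mul_one _

theorem e1_lt {x : ℤᵐ⁰} (h : x < 1) : x ≤ WithZero.exp (-1 : ℤ) := by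
  by_cases hx : x = 0
  · rw [hx]
    exact zero_le
  · rw [← WithZero.exp_log hx] at h ⊢
    rw [← WithZero.exp_zero, WithZero.exp_lt_exp] at h
    rw [WithZero.exp_le_exp]
    omega

variable {L : Type} [Field L] [NumberField L] [Algebra F L]

theorem e1_gal {w : Pl L} {σ : Gal(L/F)} (h : smulP σ w = w) (x : L) :
    w.valuation L (σ x) = w.valuation L x := by
  by_cases hx : x = 0
  · rw [hx, map_zero]
  · have h1 := ord_smul σ w (Units.mk0 x hx)
    rw [h] at h1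
    have h2 := BF1_val w (Units.map ((σ : L ≃ₐ[F] L) : L →* L) (Units.mk0 x hx))
    rw [h1, ← BF1_val w (Units.mk0 x hx)] at h2
    exact h2

theorem e1_val {k : Type} [Field k] {χ : Gal(L/F) →* kˣ} {w : Pl L} {t : Lˣ} {r : 𝓞 L →+* k}
    (hloc : Loc χ w t r) (y : 𝓞 F) :
    w.valuation L (algebraMap F L (y : F)) ≤ 1 ∧
    (w.valuation L (algebraMap F L (y : F)) < 1 → r (algebraMap (𝓞 F) (𝓞 L) y) = 0) := by
  have e : algebraMap F L (y : F) = algebraMap (𝓞 L) L (algebraMap (𝓞 F) (𝓞 L) y) := by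
    rfl
  rw [e]
  refine ⟨w.valuation_le_one _, fun h => ?_⟩
  rw [hloc.ker]
  exact (w.valuation_lt_one_iff_mem _).1 h

/-- The exponents sum to a multiple of l. -/
theorem e1_sum {l : ℕ} [Fact l.Prime] {G : Type} [Group G] [Fintype G]
    {k : Type} [Field k] [Fintype k] [DecidableEq k] (hq : 2 < Fintype.card k)
    {χ : G →* kˣ} (hχ : Function.Bijective χ) (ρ : k →+ ZMod l) (a : k) :
    l ∣ ∑ σ : G, (ρ (a * ((χ σ)⁻¹ : kˣ))).val := by
  rw [← ZMod.natCast_eq_zero_iff, Nat.cast_sum]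
  have h1 : ∀ σ : G, (((ρ (a * ((χ σ)⁻¹ : kˣ))).val : ℕ) : ZMod l) = ρ (a * ((χ σ)⁻¹ : kˣ)) :=
    fun σ => ZMod.natCast_zmod_val _
  simp only [h1]
  rw [← map_sum, ← Finset.mul_sum]
  have h2 : ∑ σ : G, (((χ σ)⁻¹ : kˣ) : k) = ∑ c : kˣ, ((c⁻¹ : kˣ) : k) :=
    Function.Bijective.sum_comp hχ (fun c : kˣ => ((c⁻¹ : kˣ) : k))
  have h3 : ∑ c : kˣ, ((c⁻¹ : kˣ) : k) = ∑ c : kˣ, (c : k) :=
    Equiv.sum_comp (Equiv.inv kˣ) (fun c : kˣ => (c : k))
  have h4 : ∑ c : kˣ, (c : k) = 0 := by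
    have h5 := FiniteField.sum_pow_units k 1
    have h6 : ¬ (Fintype.card k - 1 ∣ 1) := by
      intro h
      have := Nat.le_of_dvd one_pos h
      omega
    rw [if_neg h6] at h5
    simpa using h5
  rw [h2, h3, h4, mul_zero, map_zero]

theorem lev_eta {L : Type} [Field L] [NumberField L] [Algebra F L] {l : ℕ} [Fact l.Prime]
    {k : Type} [Field k] [Fintype k] [DecidableEq k] [CharP k l] (hq : 2 < Fintype.card k)
    {χ : Gal(L/F) →* kˣ} (hχ : Function.Bijective χ) (ρ : k →+ ZMod l) (hρ : IsRho l ρ)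
    {w : Pl L} {t : Lˣ} {r : 𝓞 L →+* k} (hloc : Loc χ w t r) (ξ : Lˣ) (a0 : F) (ha0 : a0 ≠ 0)
    (c : 𝓞 F) (hc : r (algebraMap (𝓞 F) (𝓞 L) c) ≠ 0)
    (hξ : w.valuation L ((ξ : L) / algebraMap F L a0 - 1 - algebraMap F L (c : F) * (t : L)) ≤
      WithZero.exp (-2 : ℤ)) (a : k) (ha : a ≠ 0) : ¬ Lev l w (eta χ ρ a ξ) := by
  classical
  have hlp : l.Prime := Fact.out
  have h21 : WithZero.exp (-2 : ℤ) ≤ (1 : ℤᵐ⁰) := by
    rw [← WithZero.exp_zero, WithZero.exp_le_exp]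
    norm_num
  have h2l : WithZero.exp (-2 : ℤ) < (1 : ℤᵐ⁰) := by
    rw [← WithZero.exp_zero, WithZero.exp_lt_exp]
    norm_num
  have h1l : WithZero.exp (-1 : ℤ) < (1 : ℤᵐ⁰) := by
    rw [← WithZero.exp_zero, WithZero.exp_lt_exp]
    norm_num
  have ht : w.valuation L (t : L) = WithZero.exp (-1 : ℤ) := by
    rw [BF1_val, hloc.unif]
  have hA0 : algebraMap F L a0 ≠ 0 := by
    rw [Ne, map_eq_zero]
    exact ha0
  -- lifts of the values of χ
  choose X hX using fun σ : Gal(L/F) => hloc.surj (χ σ : k)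
  -- the elements σ ξ / a0
  have hψ : ∀ σ : Gal(L/F), w.valuation L ((σ (ξ : L)) / algebraMap F L a0 - 1 -
      (algebraMap F L ((c * X σ : 𝓞 F) : F)) * (t : L)) ≤ WithZero.exp (-2 : ℤ) := by
    intro σ
    have h1 : w.valuation L (σ ((ξ : L) / algebraMap F L a0 - 1 - algebraMap F L (c : F) * (t : L))) ≤
        WithZero.exp (-2 : ℤ) := by
      rw [e1_gal (hloc.inv σ)]
      exact hξ
    have h0 : σ ((ξ : L) / algebraMap F L a0 - 1 - algebraMap F L (c : F) * (t : L)) =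
        σ (ξ : L) / algebraMap F L a0 - 1 - algebraMap F L (c : F) * σ (t : L) := by
      rw [map_sub, map_sub, map_div₀, map_mul, map_one, AlgEquiv.commutes, AlgEquiv.commutes]
    rw [h0] at h1
    have h2 := hloc.act σ (X σ) (hX σ)
    have e : (σ (ξ : L)) / algebraMap F L a0 - 1 -
        (algebraMap F L ((c * X σ : 𝓞 F) : F)) * (t : L) =
        ((σ (ξ : L)) / algebraMap F L a0 - 1 - algebraMap F L (c : F) * σ (t : L)) +
        algebraMap F L (c : F) * (σ (t : L) - algebraMap F L (X σ : F) * (t : L)) := by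
      have : ((c * X σ : 𝓞 F) : F) = (c : F) * (X σ : F) := rfl
      rw [this, map_mul]
      ring
    rw [e]
    refine Valuation.map_add_le _ h1 ?_
    rw [map_mul]
    calc _ ≤ 1 * WithZero.exp (-2 : ℤ) := mul_le_mul' (e1_val hloc c).1 h2
      _ = _ := one_mul _
  -- the product
  let n : Gal(L/F) → ℕ := fun σ => (ρ (a * ((χ σ)⁻¹ : kˣ))).val
  obtain ⟨hP, hE1⟩ := e1_prod (w.valuation L) Finset.univ
    (fun σ : Gal(L/F) => (σ (ξ : L)) / algebraMap F L a0)
    (fun σ : Gal(L/F) => algebraMap F L ((c * X σ : 𝓞 F) : F)) n ht.le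
    (fun σ _ => (e1_val hloc _).1) (fun σ _ => hψ σ)
  set Pr : L := ∏ σ : Gal(L/F), ((σ (ξ : L)) / algebraMap F L a0) ^ n σ with hPr
  obtain ⟨E, hE⟩ : ∃ E : 𝓞 F, E = ∑ σ : Gal(L/F), (n σ : 𝓞 F) * (c * X σ) := ⟨_, rfl⟩
  have hEmap : (∑ σ : Gal(L/F), (n σ : L) * algebraMap F L ((c * X σ : 𝓞 F) : F)) =
      algebraMap F L (E : F) := by
    have e1 : (E : F) = ∑ σ : Gal(L/F), (n σ : F) * ((c * X σ : 𝓞 F) : F) := by
      rw [hE]
      have := map_sum (algebraMap (𝓞 F) F) (fun σ : Gal(L/F) => (n σ : 𝓞 F) * (c * X σ)) Finset.univ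
      rw [show ((∑ σ : Gal(L/F), (n σ : 𝓞 F) * (c * X σ) : 𝓞 F) : F) =
        algebraMap (𝓞 F) F (∑ σ : Gal(L/F), (n σ : 𝓞 F) * (c * X σ)) from rfl, this]
      refine Finset.sum_congr rfl fun σ _ => ?_
      rw [map_mul, map_natCast]
    rw [e1, map_sum]
    refine Finset.sum_congr rfl fun σ _ => ?_
    rw [map_mul, map_natCast]
  rw [hEmap] at hP hE1
  -- the reduction of E
  have hrE : r (algebraMap (𝓞 F) (𝓞 L) E) ≠ 0 := by
    have e1 : r (algebraMap (𝓞 F) (𝓞 L) E) = r (algebraMap (𝓞 F) (𝓞 L) c) * (-a) := by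
      rw [← chs_nn χ ρ hχ hρ a, hE, map_sum, map_sum]
      unfold chs
      rw [Finset.mul_sum]
      refine Finset.sum_congr rfl fun σ _ => ?_
      have h9 : ((cf χ ρ a σ : ℤ) : k) = (n σ : k) := Int.cast_natCast _
      rw [map_mul, map_mul, map_mul, map_mul, map_natCast, map_natCast, hX, h9]
      ring
    rw [e1]
    exact mul_ne_zero hc (neg_ne_zero.2 ha)
  have hvE : w.valuation L (algebraMap F L (E : F)) = 1 := by
    refine le_antisymm hE1 (not_lt.1 fun h => hrE ((e1_val hloc E).2 h))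
  -- eta
  obtain ⟨N', hN'⟩ := e1_sum hq hχ ρ a
  have hN : ∑ σ : Gal(L/F), n σ = l * N' := hN'
  have heta : ((eta χ ρ a ξ : Lˣ) : L) = (algebraMap F L a0 ^ N') ^ l * Pr := by
    have e1 : ((eta χ ρ a ξ : Lˣ) : L) = ∏ σ : Gal(L/F), (σ (ξ : L)) ^ n σ := by
      unfold eta pw
      rw [Units.coe_prod]
      refine Finset.prod_congr rfl fun σ _ => ?_
      have : cf χ ρ a σ = ((n σ : ℕ) : ℤ) := rfl
      rw [this, zpow_natCast, Units.val_pow_eq_pow_val, gu_apply]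
    rw [e1, ← pow_mul, mul_comm N' l, ← hN, ← Finset.prod_pow_eq_pow_sum, hPr, ← Finset.prod_mul_distrib]
    refine Finset.prod_congr rfl fun σ _ => ?_
    rw [← mul_pow, mul_div_cancel₀ _ hA0]
  rintro ⟨z, hz⟩
  -- y = z / a0^N'
  obtain ⟨y, hy⟩ : ∃ y : L, y = (z : L) / algebraMap F L a0 ^ N' := ⟨_, rfl⟩
  have hz0 : (z : L) ≠ 0 := z.ne_zero
  have hA0N : algebraMap F L a0 ^ N' ≠ 0 := pow_ne_zero _ hA0
  have hy0 : y ≠ 0 := by
    rw [hy]
    exact div_ne_zero hz0 hA0N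
  have hyz : (((eta χ ρ a ξ) * (z ^ l)⁻¹ : Lˣ) : L) = Pr / y ^ l := by
    rw [Units.val_mul, Units.val_inv_eq_inv_val, Units.val_pow_eq_pow_val, heta, hy, div_pow]
    field_simp
  rw [hyz] at hz
  have htE : w.valuation L (algebraMap F L (E : F) * (t : L)) = WithZero.exp (-1 : ℤ) := by
    rw [map_mul, hvE, one_mul, ht]
  have hvP : w.valuation L Pr = 1 := by
    have e1 : Pr = 1 + ((Pr - 1 - algebraMap F L (E : F) * (t : L)) + algebraMap F L (E : F) * (t : L)) := by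
      ring
    rw [e1]
    apply Valuation.map_one_add_of_lt
    refine Valuation.map_add_lt _ (lt_of_le_of_lt hP h2l) ?_
    rw [htE]
    exact h1l
  have hvyl : w.valuation L (y ^ l) = 1 := by
    have e1 : w.valuation L (Pr / y ^ l) = 1 := by
      have e2 : Pr / y ^ l = 1 + (Pr / y ^ l - 1) := by ring
      rw [e2]
      exact Valuation.map_one_add_of_lt _ (lt_of_le_of_lt hz h2l)
    rw [map_div₀, hvP] at e1
    have h3 : w.valuation L (y ^ l) ≠ 0 := by
      rw [Ne, map_eq_zero]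
      exact pow_ne_zero _ hy0
    rw [div_eq_one_iff_eq h3] at e1
    exact e1.symm
  have hvy : w.valuation L y = 1 := by
    rw [map_pow] at hvyl
    exact (pow_eq_one_iff_of_nonneg zero_le hlp.ne_zero).1 hvyl
  have hPy : w.valuation L (Pr - y ^ l) ≤ WithZero.exp (-2 : ℤ) := by
    have e1 : Pr - y ^ l = (Pr / y ^ l - 1) * y ^ l := by
      field_simp
    rw [e1, map_mul, hvyl, mul_one]
    exact hz
  -- y0
  obtain ⟨p, q, hp, hq', hpq⟩ := exists_frac w (Units.mk0 y hy0) (by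
    have h3 := BF1_val w (Units.mk0 y hy0)
    rw [Units.val_mk0, hvy, ← WithZero.exp_zero] at h3
    have := WithZero.exp_injective h3
    omega)
  rw [Units.val_mk0] at hpq
  obtain ⟨y0, hy0'⟩ := hloc.surj (r p / r q)
  have hrq : r q ≠ 0 := fun h => hq' ((hloc.ker q).1 h)
  have hmem : p - q * algebraMap (𝓞 F) (𝓞 L) y0 ∈ w.asIdeal := by
    rw [← hloc.ker, map_sub, map_mul, hy0', mul_div_cancel₀ _ hrq, sub_self]
  have hvq : w.valuation L (q : L) = 1 := (HeightOneSpectrum.valuation_eq_one_iff_notMem (K := L) w).2 hq'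
  have hq0 : (q : L) ≠ 0 := by
    intro h
    rw [h, map_zero] at hvq
    exact zero_ne_one hvq
  have hs : w.valuation L (y - algebraMap F L (y0 : F)) ≤ WithZero.exp (-1 : ℤ) := by
    apply e1_lt
    have e1 : y - algebraMap F L (y0 : F) = ((p - q * algebraMap (𝓞 F) (𝓞 L) y0 : 𝓞 L) : L) / (q : L) := by
      rw [hpq, eq_div_iff hq0]
      have : ((p - q * algebraMap (𝓞 F) (𝓞 L) y0 : 𝓞 L) : L) = (p : L) - (q : L) * algebraMap F L (y0 : F) := rfl
      rw [this]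
      field_simp
    rw [e1, map_div₀, hvq, div_one]
    exact (w.valuation_lt_one_iff_mem _).2 hmem
  have hvl : w.valuation L ((l : ℕ) : L) ≤ WithZero.exp (-2 : ℤ) := by
    have h3 := hloc.ram ((l : ℕ) : 𝓞 F) (by rw [map_natCast, map_natCast, CharP.cast_eq_zero])
    have e1 : algebraMap F L (((l : ℕ) : 𝓞 F) : F) = ((l : ℕ) : L) := by
      have : (((l : ℕ) : 𝓞 F) : F) = ((l : ℕ) : F) := map_natCast (algebraMap (𝓞 F) F) l
      rw [this, map_natCast]
    rw [e1] at h3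
    exact h3
  have hpow := e1_lpow (w.valuation L) hlp hvl (e1_val hloc y0).1 hs
  have e3 : algebraMap F L (y0 : F) + (y - algebraMap F L (y0 : F)) = y := by ring
  rw [e3] at hpow
  have hfin : w.valuation L (algebraMap F L (y0 : F) ^ l - 1 - algebraMap F L (E : F) * (t : L)) ≤
      WithZero.exp (-2 : ℤ) := by
    have e4 : algebraMap F L (y0 : F) ^ l - 1 - algebraMap F L (E : F) * (t : L) =
        (Pr - 1 - algebraMap F L (E : F) * (t : L)) - (Pr - y ^ l) - (y ^ l - algebraMap F L (y0 : F) ^ l) := by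
      ring
    rw [e4]
    exact Valuation.map_sub_le _ (Valuation.map_sub_le _ hP hPy) hpow
  have e5 : algebraMap F L (y0 : F) ^ l - 1 = algebraMap F L ((y0 ^ l - 1 : 𝓞 F) : F) := by
    have : ((y0 ^ l - 1 : 𝓞 F) : F) = (y0 : F) ^ l - 1 := rfl
    rw [this, map_sub, map_pow, map_one]
  have hlt : w.valuation L (algebraMap F L ((y0 ^ l - 1 : 𝓞 F) : F)) < 1 := by
    rw [← e5]
    have e6 : algebraMap F L (y0 : F) ^ l - 1 = (algebraMap F L (y0 : F) ^ l - 1 -
        algebraMap F L (E : F) * (t : L)) + algebraMap F L (E : F) * (t : L) := by ring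
    rw [e6]
    refine Valuation.map_add_lt _ (lt_of_le_of_lt hfin h2l) ?_
    rw [htE]
    exact h1l
  have h7 := hloc.ram _ ((e1_val hloc _).2 hlt)
  rw [← e5] at h7
  have h8 : w.valuation L (algebraMap F L (E : F) * (t : L)) ≤ WithZero.exp (-2 : ℤ) := by
    have e7 : algebraMap F L (E : F) * (t : L) = (algebraMap F L (y0 : F) ^ l - 1) -
        (algebraMap F L (y0 : F) ^ l - 1 - algebraMap F L (E : F) * (t : L)) := by ring
    rw [e7]
    exact Valuation.map_sub_le _ h7 hfin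
  rw [htE, WithZero.exp_le_exp] at h8
  norm_num at h8

end H55K.Ab
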