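import Mathlib
import Pool.Agent.Lib.H55K.A.A4
import Pool.Agent.Lib.H55K.A.B2
import Pool.Agent.Lib.H55K.A.B3
import Pool.Agent.Lib.H55K.A.B4

/-!
Chunk B5 (M). The step with the units. See PROOF.md, B5.
PROOF. (z, n) from minkowski. x = m 1, y = eta χ ρ 1 ξ are units (ord v (pw gu α ξ) = sum α(σ) ord v (gu σ ξ) = 0, ord_smul), so x^n = pw gu α z, y^n = pw gu β z
(minkowski). dim_lemma (hχ makes the group commutative) gives γ, γ', w with IsOfFinOrder (pw γ x (pw γ' y)⁻¹ w^l). Let c = chs χ γ, c' = chs χ γ', (c, c') ≠ 0, and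
h a = m (c a) (eta χ ρ (c' a) ξ)⁻¹ (EqHom by trans_comb, eta_hom). h 1 ~ pw γ x (pw γ' y)⁻¹ (eq_pw for m and for eta) is torsion modulo l-th powers; for a ≠ 0, a = χ σ and
h a = h (χ σ * 1) ~ gu σ (h 1) is torsion modulo l-th powers; h 0 ~ 1 (eq_zero). torsion_triv: every h a is an l-th power.
If c = 0 then c' ≠ 0 and, for a = 1: m 0 is an l-th power, so eta χ ρ c' ξ is an l-th power, hence Lev (lev_pow), contradiction to hlev. So c ≠ 0. If c' ≠ 0: a = 1: eta χ ρ c' ξ = m c * (l-th power)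
is Lev (lev_mul, hL), contradiction. So c' = 0: m (c a) ~ eta χ ρ 0 ξ ~ 1 for all a (eq_zero), and every element of k is c a.
-/

open NumberField IsDedekindDomain

namespace H55K.Ab

open H55R

variable {F : Type} [Field F] [NumberField F]

private theorem b5_ord_gu {L : Type} [Field L] [NumberField L] [Algebra F L] (v : Pl L) (σ : Gal(L/F)) (x : Lˣ) :
    ord v (gu σ x) = ord (smulP σ⁻¹ v) x := by
  have h := ord_smul σ (smulP σ⁻¹ v) x
  rw [← smulP_mul, mul_inv_cancel, smulP_one] at h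
  exact h

private theorem b5_e {A : Type} [CommGroup A] (a b x y w : A) :
    a * b⁻¹ = a * x * (b⁻¹ * y⁻¹) * w * (x⁻¹ * y * w⁻¹) := by
  apply (Additive.ofMul : A ≃ Additive A).injective
  simp only [ofMul_mul, ofMul_inv]
  abel

private theorem b5_ord_prod {L : Type} [Field L] [NumberField L] (v : Pl L) {ι : Type} (s : Finset ι) (f : ι → Lˣ)
    (h : ∀ i ∈ s, ord v (f i) = 0) : ord v (∏ i ∈ s, f i) = 0 := by
  classical
  induction s using Finset.induction_on with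
  | empty => exact ord_one v
  | insert a s ha ih =>
    rw [Finset.prod_insert ha, ord_mul, h a (Finset.mem_insert_self a s),
      ih fun i hi => h i (Finset.mem_insert_of_mem hi), add_zero]

private theorem b5_ord_pw {L : Type} [Field L] [NumberField L] [Algebra F L] (v : Pl L) (α : Gal(L/F) → ℤ) (x : Lˣ)
    (hx : ∀ v : Pl L, ord v x = 0) : ord v (pw gu α x) = 0 := by
  unfold pw
  refine b5_ord_prod v _ _ fun σ _ => ?_
  rw [ord_zpow, b5_ord_gu, hx, mul_zero]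

theorem unit_step [H55P.IQ F] {L : Type} [Field L] [NumberField L] [Algebra F L] [IsGalois F L] {l : ℕ}
    [Fact l.Prime] {k : Type} [Field k] [Fintype k] [DecidableEq k] [CharP k l]
    {χ : Gal(L/F) →* kˣ} (hχ : Function.Bijective χ) (ρ : k →+ ZMod l) (hρ : IsRho l ρ)
    (hcyc : ∀ ζ : Lˣ, IsPrimitiveRoot ζ l →
      ¬ ∀ (σ : Gal(L/F)) (n : ℕ), (n : k) = χ σ → gu σ ζ = ζ ^ n)
    (w : Pl L) (ξ : Lˣ) (hξ : ∀ v : Pl L, ord v ξ = 0)
    (hlev : ∀ a : k, a ≠ 0 → ¬ Lev l w (eta χ ρ a ξ))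
    {m : k → Lˣ} (hm : EqHom l χ m) (hu : ∀ (a : k) (v : Pl L), ord v (m a) = 0)
    (hL : ∀ a, Lev l w (m a)) (a : k) : ∃ z : Lˣ, m a = z ^ l := by
  obtain ⟨z, n, hn, hz, hall⟩ := minkowski F L
  have heta := eta_hom (χ := χ) ρ ξ
  obtain ⟨α, hα⟩ := hall (m 1) (hu 1)
  obtain ⟨β, hβ⟩ := hall (eta χ ρ 1 ξ) (fun v => b5_ord_pw v _ ξ hξ)
  have hone : ∀ x y : Lˣ, x = y → IsOfFinOrder (x * y⁻¹) := by
    rintro x _ rfl
    rw [mul_inv_cancel]
    exact IsOfFinOrder.one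
  have hx1 : IsOfFinOrder (m 1 ^ n * (pw gu α z)⁻¹) := hone _ _ hα
  have hy1 : IsOfFinOrder (eta χ ρ 1 ξ ^ n * (pw gu β z)⁻¹) := hone _ _ hβ
  obtain ⟨γ, γ', w', hne, hfin⟩ := dim_lemma (G := Gal(L/F)) (A := Lˣ) gu χ hχ ρ hρ n hn (m 1) (eta χ ρ 1 ξ) z α β
    hx1 hy1
  set c := chs χ γ with hc
  set c' := chs χ γ' with hc'
  have hh := trans_comb hm heta c c'
  obtain ⟨z1, hz1⟩ := eq_pw hm γ 1
  obtain ⟨z2, hz2⟩ := eq_pw heta γ' 1
  set τ0 : Lˣ := pw gu γ (m 1) * (pw gu γ' (eta χ ρ 1 ξ))⁻¹ * w' ^ l with hτ0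
  have h1 : m (c * 1) * (eta χ ρ (c' * 1) ξ)⁻¹ = τ0 * (z1⁻¹ * z2 * w'⁻¹) ^ l := by
    rw [hτ0, hz1, hz2, mul_inv, mul_pow, mul_pow, inv_pow, inv_pow]
    rw [← hc, ← hc']
    exact b5_e _ _ _ _ _
  have ht : ∀ b : k, ∃ τ zz : Lˣ, IsOfFinOrder τ ∧ m (c * b) * (eta χ ρ (c' * b) ξ)⁻¹ = τ * zz ^ l := by
    intro b
    by_cases hb : b = 0
    · obtain ⟨zz, hzz⟩ := eq_zero hh
      refine ⟨1, zz, IsOfFinOrder.one, ?_⟩
      rw [hb, one_mul]
      exact hzz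
    · obtain ⟨σ, hσ⟩ := hχ.2 (Units.mk0 b hb)
      obtain ⟨zz, hzz⟩ := hh.equiv σ 1
      have hb' : ((χ σ : kˣ) : k) * 1 = b := by
        rw [hσ, mul_one]
        rfl
      rw [hb'] at hzz
      refine ⟨gu σ τ0, gu σ (z1⁻¹ * z2 * w'⁻¹) * zz, ?_, ?_⟩
      · exact MonoidHom.isOfFinOrder (gu σ) hfin
      · rw [hzz, h1, map_mul, map_pow, mul_pow, mul_assoc]
  have htriv := fun b => torsion_triv hχ hcyc hh ht b
  by_cases h0 : c' = 0
  · have hc0 : c ≠ 0 := hne.resolve_right (fun h => h h0)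
    obtain ⟨z3, hz3⟩ := eq_zero heta
    obtain ⟨z4, hz4⟩ := htriv (c⁻¹ * a)
    have e1 : c * (c⁻¹ * a) = a := by rw [← mul_assoc, mul_inv_cancel₀ hc0, one_mul]
    simp only [e1, h0, zero_mul] at hz4
    refine ⟨z4 * z3, ?_⟩
    rw [mul_pow, ← hz4, ← hz3, inv_mul_cancel_right]
  · exfalso
    obtain ⟨z4, hz4⟩ := htriv 1
    simp only [mul_one] at hz4
    have e : eta χ ρ c' ξ = m c * (z4⁻¹) ^ l := by
      rw [inv_pow, ← hz4]
      simp
    apply hlev c' h0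
    rw [e]
    exact lev_mul (hL c) (lev_pow _)

end H55K.Ab
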