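import Mathlib
import Pool.Agent.Lib.H55K.A.A5
import Pool.Agent.Lib.H55K.A.C1

/-!
Chunk C2 (M). From an equivariant m with divisors divisible by l: either the class group has an equivariant homomorphism θ to k, not 0, or m is represented by units.
PROOF. C = Div / principal, finite (fin_class), with the action of G = Gal(L/F) induced by gD (QuotientAddGroup.map, gD_div; a monoid homomorphism G →* AddMonoid.End C: gD is one).
D a = divF (m a) / l (the function v ↦ ord v (m a) / l). l • D a = divF (m a). From m (a+b) = m a m b z^l: D (a+b) = D a + D b + divF z (multiply by l, Div is torsion free), so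
M a = class of D a is additive, and M (χ σ a) = ac σ (M a). If M a ≠ 0 for some a: dual_hom gives θ0 : C →+ k equivariant, not 0; θ v = θ0 (class of the basis vector of v): equiv by gD_single;
for x: θ0 (class of divF x) = 0 and divF x = sum ord v x • single v 1 (Finsupp.sum_single), so the finite sum is 0 (finsum_eq_sum_of_support_subset; (n • c) = (n : k) * c).
θ v ≠ 0 for some v: otherwise θ0 kills all basis vectors, so θ0 = 0.
If M a = 0 for all a: D a = divF (z a), z a : Lˣ, m' a = m a * (z a ^ l)⁻¹ has divisor 0, and it is EqHom (it differs from m by l-th powers).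
-/

open NumberField IsDedekindDomain

namespace H55K.Ab

open H55R

variable {F : Type} [Field F] [NumberField F]

section c2aux

variable {A : Type} [CommGroup A] {l : ℕ}

/-- Equality up to l-th powers. -/
private def c2R (l : ℕ) (x y : A) : Prop := ∃ z : A, x = y * z ^ l

private theorem c2_refl (x : A) : c2R l x x := ⟨1, by simp⟩

private theorem c2_symm {x y : A} (h : c2R l x y) : c2R l y x := by
  obtain ⟨z, rfl⟩ := h
  exact ⟨z⁻¹, by simp⟩

private theorem c2_trans {x y w : A} (h : c2R l x y) (h' : c2R l y w) : c2R l x w := by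
  obtain ⟨z, rfl⟩ := h
  obtain ⟨v, rfl⟩ := h'
  exact ⟨v * z, by rw [mul_pow, mul_assoc]⟩

private theorem c2_mul {x y x' y' : A} (h : c2R l x y) (h' : c2R l x' y') : c2R l (x * x') (y * y') := by
  obtain ⟨z, rfl⟩ := h
  obtain ⟨v, rfl⟩ := h'
  exact ⟨z * v, by rw [mul_pow, mul_mul_mul_comm]⟩

private theorem c2_map (f : Monoid.End A) {x y : A} (h : c2R l x y) : c2R l (f x) (f y) := by
  obtain ⟨z, rfl⟩ := h
  exact ⟨f z, by rw [map_mul, map_pow]⟩

end c2aux

/-- The action on the class group. -/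
private noncomputable def c2ac (L : Type) [Field L] [NumberField L] [Algebra F L] :
    Gal(L/F) →* AddMonoid.End ((Pl L →₀ ℤ) ⧸ (divF (L := L)).range) where
  toFun σ := QuotientAddGroup.map _ _ (gD σ) (by
    rintro _ ⟨x, rfl⟩
    exact ⟨Additive.ofMul (gu σ x.toMul), (gD_div σ x.toMul).symm⟩)
  map_one' := by
    ext x
    induction x using QuotientAddGroup.induction_on with
    | H x =>
      have h : (gD (1 : Gal(L/F))) x = x := by
        rw [map_one]
        rfl
      exact congrArg (QuotientAddGroup.mk (s := (divF (L := L)).range)) h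
  map_mul' σ τ := by
    ext x
    induction x using QuotientAddGroup.induction_on with
    | H x =>
      have h : (gD (σ * τ)) x = gD σ (gD τ x) := by
        rw [map_mul]
        rfl
      exact congrArg (QuotientAddGroup.mk (s := (divF (L := L)).range)) h

private theorem c2ac_mk {L : Type} [Field L] [NumberField L] [Algebra F L] (σ : Gal(L/F)) (D : Pl L →₀ ℤ) :
    c2ac L σ (QuotientAddGroup.mk' _ D) = QuotientAddGroup.mk' _ (gD σ D) := rfl

theorem class_step {L : Type} [Field L] [NumberField L] [Algebra F L] {l : ℕ} [Fact l.Prime]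
    {k : Type} [Field k] [Fintype k] [DecidableEq k] [CharP k l] {χ : Gal(L/F) →* kˣ}
    (hχ : Function.Bijective χ) (ρ : k →+ ZMod l) (hρ : IsRho l ρ) {m : k → Lˣ}
    (hm : EqHom l χ m) (hd : ∀ (a : k) (v : Pl L), (l : ℤ) ∣ ord v (m a)) :
    (∃ θ : Pl L → k, IsTh χ θ ∧ ∃ v, θ v ≠ 0) ∨
      ∃ m' : k → Lˣ, EqHom l χ m' ∧ (∀ (a : k) (v : Pl L), ord v (m' a) = 0) ∧
        ∀ a, ∃ z : Lˣ, m a = m' a * z ^ l := by
  classical
  have hl : (l : ℤ) ≠ 0 := by exact_mod_cast (Fact.out : l.Prime).ne_zero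
  have hfin : Finite ((Pl L →₀ ℤ) ⧸ (divF (L := L)).range) := fin_class
  have hcanc : ∀ D D' : Pl L →₀ ℤ, (l : ℤ) • D = (l : ℤ) • D' → D = D' := by
    intro D D' h
    ext v
    have := DFunLike.congr_fun h v
    simp only [Finsupp.smul_apply, smul_eq_mul] at this
    exact mul_left_cancel₀ hl this
  have hordpow : ∀ (x : Lˣ), divF (Additive.ofMul (x ^ l)) = (l : ℤ) • divF (Additive.ofMul x) := by
    intro x
    rw [ofMul_pow, map_nsmul]
    simp
  set D : k → (Pl L →₀ ℤ) := fun a => (divF (Additive.ofMul (m a))).mapRange (fun n => n / (l : ℤ)) (by simp) with hD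
  have hDl : ∀ a, (l : ℤ) • D a = divF (Additive.ofMul (m a)) := by
    intro a
    ext v
    rw [hD]
    simp only [Finsupp.smul_apply, Finsupp.mapRange_apply, smul_eq_mul]
    exact Int.mul_ediv_cancel' (hd a v)
  have hadd : ∀ a b, ∃ z : Lˣ, D (a + b) = D a + D b + divF (Additive.ofMul z) := by
    intro a b
    obtain ⟨z, hz⟩ := hm.add a b
    refine ⟨z, hcanc _ _ ?_⟩
    rw [hDl, smul_add, smul_add, hDl, hDl, hz, ofMul_mul, ofMul_mul, map_add, map_add, hordpow]
  have hequiv : ∀ σ a, ∃ z : Lˣ, D (χ σ * a) = gD σ (D a) + divF (Additive.ofMul z) := by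
    intro σ a
    obtain ⟨z, hz⟩ := hm.equiv σ a
    refine ⟨z, hcanc _ _ ?_⟩
    rw [hDl, smul_add, ← map_zsmul, hDl, gD_div, hz, ofMul_mul, map_add, hordpow]
  set mkq : (Pl L →₀ ℤ) →+ (Pl L →₀ ℤ) ⧸ (divF (L := L)).range := QuotientAddGroup.mk' _ with hmkq
  have hmk0 : ∀ x : Lˣ, mkq (divF (Additive.ofMul x)) = 0 := fun x =>
    (QuotientAddGroup.eq_zero_iff _).2 ⟨_, rfl⟩
  have hMadd : ∀ a b, mkq (D (a + b)) = mkq (D a) + mkq (D b) := by
    intro a b
    obtain ⟨z, hz⟩ := hadd a b
    rw [hz, map_add, map_add, hmk0, add_zero]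
  set M : k →+ (Pl L →₀ ℤ) ⧸ (divF (L := L)).range := AddMonoidHom.mk' (fun a => mkq (D a)) hMadd with hM
  have hMeq : ∀ (σ : Gal(L/F)) (a : k), M (χ σ * a) = c2ac L σ (M a) := by
    intro σ a
    obtain ⟨z, hz⟩ := hequiv σ a
    change mkq (D (χ σ * a)) = c2ac L σ (mkq (D a))
    rw [hz, map_add, hmk0, add_zero, hmkq, c2ac_mk]
  by_cases hM0 : ∃ a, M a ≠ 0
  · left
    obtain ⟨θ0, hθ1, x0, hx0⟩ := dual_hom (c2ac L) χ hχ ρ hρ M hMeq hM0
    set Φ : (Pl L →₀ ℤ) →+ k := θ0.comp mkq with hΦ
    have hΦs : ∀ v n, Φ (Finsupp.single v n) = (n : k) * Φ (Finsupp.single v 1) := by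
      intro v n
      have : Finsupp.single v n = n • Finsupp.single v (1 : ℤ) := by
        rw [Finsupp.smul_single, smul_eq_mul, mul_one]
      rw [this, map_zsmul, zsmul_eq_mul]
    have hΦD : ∀ E : Pl L →₀ ℤ, Φ E = ∑ v ∈ E.support, (E v : k) * Φ (Finsupp.single v 1) := by
      intro E
      conv_lhs => rw [← Finsupp.sum_single E]
      rw [Finsupp.sum, map_sum]
      exact Finset.sum_congr rfl fun v _ => hΦs v (E v)
    refine ⟨fun v => Φ (Finsupp.single v 1), ⟨fun σ v => ?_, fun x => ?_⟩, ?_⟩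
    · rw [← gD_single]
      change θ0 (mkq (gD σ (Finsupp.single v 1))) = _
      rw [hmkq, ← c2ac_mk, hθ1]
      rfl
    · have h1 : Φ (divF (Additive.ofMul x)) = 0 := by
        change θ0 (mkq _) = 0
        rw [hmk0, map_zero]
      rw [hΦD] at h1
      rw [← h1]
      refine finsum_eq_sum_of_support_subset _ fun v hv => ?_
      rw [Finset.mem_coe, Finsupp.mem_support_iff]
      intro h0
      apply hv
      have h2 : ord v x = 0 := h0
      simp only [h2, Int.cast_zero, zero_mul]
    · by_contra hcon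
      push Not at hcon
      apply hx0
      obtain ⟨E, rfl⟩ := QuotientAddGroup.mk'_surjective _ x0
      change Φ E = 0
      rw [hΦD]
      exact Finset.sum_eq_zero fun v _ => by rw [hcon v, mul_zero]
  · right
    push Not at hM0
    have hex : ∀ a, ∃ z : Lˣ, divF (Additive.ofMul z) = D a := by
      intro a
      obtain ⟨z, hz⟩ := (QuotientAddGroup.eq_zero_iff _).1 (hM0 a)
      exact ⟨z.toMul, hz⟩
    choose z hz using hex
    set m' : k → Lˣ := fun a => m a * (z a ^ l)⁻¹ with hm'
    have hmm : ∀ a, m a = m' a * z a ^ l := fun a => by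
      rw [hm']
      simp
    have hR : ∀ a, c2R l (m a) (m' a) := fun a => ⟨z a, hmm a⟩
    refine ⟨m', ⟨fun a b => ?_, fun σ a => ?_⟩, fun a v => ?_, fun a => ⟨z a, hmm a⟩⟩
    · exact c2_trans (c2_symm (hR _)) (c2_trans (hm.add a b) (c2_mul (hR a) (hR b)))
    · exact c2_trans (c2_symm (hR _)) (c2_trans (hm.equiv σ a) (c2_map (gu σ) (hR a)))
    · have h1 : divF (Additive.ofMul (m a)) = divF (Additive.ofMul (m' a)) + (l : ℤ) • divF (Additive.ofMul (z a)) := by
        rw [← hordpow, ← map_add, ← ofMul_mul, ← hmm]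
      rw [hz, hDl] at h1
      have h2 : divF (Additive.ofMul (m' a)) = 0 := by
        have h3 : divF (Additive.ofMul (m a)) + 0 = divF (Additive.ofMul (m a)) + divF (Additive.ofMul (m' a)) := by
          rw [add_zero, add_comm]
          exact h1
        exact (add_left_cancel h3).symm
      have := DFunLike.congr_fun h2 v
      exact this

end H55K.Ab
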