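import Mathlib
import Pool.Agent.Lib.H55B.Defs
import Pool.Agent.Lib.H55K.A.B1
import Pool.Agent.Lib.H55R.X4

/-!
Chunk D2 (M). Roots of unity and Kummer extensions.
exists_cyc: L' = CyclotomicField l L (L is a number field): Galois over L, [L':L] divides l - 1 (the Galois group embeds in (ZMod l)ˣ: IsPrimitiveRoot.autToPow_injective), so it is prime to l.
not_pow: if the image of x in L' is z^l then x^d = N(x) = N(z)^l with d = [L':L] prime to l (Algebra.norm_algebraMap), so x is an l-th power in L (lpow_of_coprime).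
kummer: x ∈ L' not an l-th power, ζ ∈ L': X^l - x is irreducible (X_pow_sub_C_irreducible_of_prime), M = AdjoinRoot or the splitting field is Galois of degree l
(isGalois_of_isSplittingField_X_pow_sub_C, finrank_of_isSplittingField_X_pow_sub_C), a number field (finite over L'). β ∈ M with β^l = x.
kummer_spl: v a prime of L' with l ∉ v, PowMod l v x. Then v splits completely in M = L'(β). PROOF: replace x by x z^(-l), β by β/z: v.valuation(x - 1) < 1. By spl_bot we need: W above v, σ W = W imply
σ = 1. σ β = ζ^j β. Modulo W: β^l = x = 1 (W.valuation (x - 1) < 1), so prod_i (β - ζ^i) = β^l - 1 has positive order at W and β = ζ^i mod W for some i (β is W-integral). As σ W = W and σ ζ = ζ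
(ζ ∈ L'): σ β = ζ^i mod W, so ζ^j β = β mod W, W.valuation (ζ^j - 1) < 1. If ζ^j ≠ 1 then ζ^j - 1 divides l (prod_{i=1}^{l-1} (1 - ζ^i) = l) in 𝓞, contradiction to l ∉ W. So σ β = β, and β generates M
over L' (hgen), σ = 1.
-/

open NumberField IsDedekindDomain

namespace H55K.Ab

open H55R

variable {F : Type} [Field F] [NumberField F]

open Polynomial in
theorem emb27 {K : Type} [Field K] [NumberField K] {ζ : K} (hζ : IsPrimitiveRoot ζ 3) :
    Nonempty (H55B.F →+* K) := by
  have h1 : (X ^ 3 - C (1 : K)).Splits := X_pow_sub_one_splits hζ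
  have h2 : ((cyclotomic 3 ℚ).map (algebraMap ℚ K)).Splits := by
    rw [map_cyclotomic]
    refine h1.of_dvd (X_pow_sub_C_ne_zero (by norm_num) 1) ?_
    rw [C_1]
    exact cyclotomic.dvd_X_pow_sub_one 3 K
  have h3 : IsSplittingField ℚ H55B.F (cyclotomic 3 ℚ) :=
    IsCyclotomicExtension.splitting_field_cyclotomic 3 ℚ H55B.F
  exact ⟨(IsSplittingField.lift H55B.F (cyclotomic 3 ℚ) h2).toRingHom⟩

theorem exists_cyc (L : Type) [Field L] [NumberField L] (l : ℕ) [Fact l.Prime] (hl5 : 5 ≤ l) :
    ∃ (L' : Type) (_ : Field L') (_ : NumberField L') (_ : Algebra L L') (_ : IsGalois L L')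
      (_ : Algebra H55B.F L') (ζ : L'), IsPrimitiveRoot ζ l ∧ (Module.finrank L L').Coprime l := by
  have hl : l.Prime := Fact.out
  have hl0 : l ≠ 0 := hl.ne_zero
  have : NeZero (3 * l) := ⟨by omega⟩
  have hg : IsGalois L (CyclotomicField (3 * l) L) :=
    IsCyclotomicExtension.isGalois {3 * l} L (CyclotomicField (3 * l) L)
  have hζ := IsCyclotomicExtension.zeta_spec (3 * l) L (CyclotomicField (3 * l) L)
  have hζ3 : IsPrimitiveRoot (IsCyclotomicExtension.zeta (3 * l) L (CyclotomicField (3 * l) L) ^ l) 3 :=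
    hζ.pow (by omega) (mul_comm 3 l)
  have hζl : IsPrimitiveRoot (IsCyclotomicExtension.zeta (3 * l) L (CyclotomicField (3 * l) L) ^ 3) l :=
    hζ.pow (by omega) rfl
  obtain ⟨φ⟩ := emb27 hζ3
  refine ⟨CyclotomicField (3 * l) L, inferInstance, inferInstance, inferInstance, hg,
    φ.toAlgebra, _, hζl, ?_⟩
  rw [← IsGalois.card_aut_eq_finrank]
  have hinj := hζ.autToPow_injective (K := L)
  have hdvd : Nat.card Gal(CyclotomicField (3 * l) L/L) ∣ Nat.card (ZMod (3 * l))ˣ :=
    Subgroup.card_dvd_of_injective (hζ.autToPow L) hinj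
  rw [Nat.card_eq_fintype_card (α := (ZMod (3 * l))ˣ), ZMod.card_units_eq_totient] at hdvd
  have h0 : (l - 1).Coprime l := by
    have h2 := hl.one_lt
    rw [Nat.coprime_comm]
    rw [Nat.Prime.coprime_iff_not_dvd hl]
    intro h3
    have := Nat.le_of_dvd (by omega) h3
    omega
  have h5 : Nat.Coprime 3 l := (Nat.coprime_primes (by norm_num) hl).2 (by omega)
  have h6 : Nat.totient 3 = 2 := by decide
  rw [Nat.totient_mul h5, Nat.totient_prime hl, h6] at hdvd
  refine Nat.Coprime.coprime_dvd_left hdvd (Nat.Coprime.mul_left ?_ h0)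
  exact (Nat.coprime_primes Nat.prime_two hl).2 (by omega)

theorem not_pow {L L' : Type} [Field L] [NumberField L] [Field L'] [NumberField L']
    [Algebra L L'] {l : ℕ} [Fact l.Prime] (hc : (Module.finrank L L').Coprime l) (x : Lˣ)
    (hx : ∃ z : L'ˣ, Units.map (algebraMap L L' : L →* L') x = z ^ l) : ∃ z : Lˣ, x = z ^ l := by
  obtain ⟨z, hz⟩ := hx
  apply lpow_of_coprime (Module.finrank L L' : ℤ) x (Nat.isCoprime_iff_coprime.2 hc)
  refine ⟨Units.map (Algebra.norm L : L' →* L) z, ?_⟩
  apply Units.ext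
  have h1 := congrArg (fun u : L'ˣ => Algebra.norm L (u : L')) hz
  simp only [Units.coe_map, MonoidHom.coe_coe, Units.val_pow_eq_pow_val, map_pow] at h1
  rw [Algebra.norm_algebraMap] at h1
  simpa using h1

theorem kummer {L' : Type} [Field L'] [NumberField L'] {l : ℕ} [Fact l.Prime] (ζ : L')
    (hζ : IsPrimitiveRoot ζ l) (x : L'ˣ) (hx : ¬ ∃ z : L'ˣ, x = z ^ l) :
    ∃ (M : Type) (_ : Field M) (_ : NumberField M) (_ : Algebra L' M) (_ : IsGalois L' M) (β : M),
      Module.finrank L' M = l ∧ β ^ l = algebraMap L' M x ∧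
        ∀ σ : Gal(M/L'), σ β = β → σ = 1 := by
  have hl : l.Prime := Fact.out
  have : NeZero l := ⟨hl.ne_zero⟩
  have hirr : Irreducible (Polynomial.X ^ l - Polynomial.C (x : L')) := by
    apply X_pow_sub_C_irreducible_of_prime hl
    intro b hb
    have hb0 : b ≠ 0 := by
      rintro rfl
      rw [zero_pow hl.ne_zero] at hb
      exact x.ne_zero hb.symm
    exact hx ⟨Units.mk0 b hb0, Units.ext (by simpa using hb.symm)⟩
  have hne : (primitiveRoots l L').Nonempty := ⟨ζ, (mem_primitiveRoots hl.pos).2 hζ⟩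
  let M := (Polynomial.X ^ l - Polynomial.C (x : L')).SplittingField
  have hfd : FiniteDimensional L' M := inferInstance
  have hnf : NumberField M := NumberField.of_module_finite L' M
  refine ⟨M, inferInstance, hnf, inferInstance, isGalois_of_isSplittingField_X_pow_sub_C hne hirr M,
    rootOfSplitsXPowSubC hl.pos (x : L') M, finrank_of_isSplittingField_X_pow_sub_C hne hirr M,
    rootOfSplitsXPowSubC_pow (x : L') M, ?_⟩
  intro σ hσ
  have htop := Algebra.adjoin_root_eq_top_of_isSplittingField hne hirr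
    (rootOfSplitsXPowSubC_pow (x : L') M)
  have h1 : (σ : M →ₐ[L'] M) = AlgHom.id L' M := by
    apply AlgHom.ext_of_adjoin_eq_top htop
    intro y hy
    rw [Set.mem_singleton_iff] at hy
    rw [hy]
    exact hσ
  ext y
  exact DFunLike.congr_fun h1 y

/-- σ W = W implies that W is invariant. -/
theorem d2_inv {K M : Type} [Field K] [NumberField K] [Field M] [NumberField M] [Algebra K M]
    (W : Pl M) (σ : Gal(M/K)) (hσ : smulP σ W = W) (y : M) :
    W.valuation M (σ y) = W.valuation M y := by
  by_cases hy : y = 0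
  · rw [hy, map_zero]
  · have h1 := ord_smul σ W (Units.mk0 y hy)
    rw [hσ] at h1
    have h2 := BF1_val W (Units.map ((σ : M ≃ₐ[K] M) : M →* M) (Units.mk0 y hy))
    have h3 := BF1_val W (Units.mk0 y hy)
    rw [h1, ← h3] at h2
    exact h2

theorem kummer_spl {L' : Type} [Field L'] [NumberField L'] {l : ℕ} [Fact l.Prime] (ζ : L')
    (hζ : IsPrimitiveRoot ζ l) (x : L'ˣ) {M : Type} [Field M] [NumberField M] [Algebra L' M]
    [IsGalois L' M] (β : M) (hβ : β ^ l = algebraMap L' M x)
    (hgen : ∀ σ : Gal(M/L'), σ β = β → σ = 1) (v : Pl L') (hl : (l : 𝓞 L') ∉ v.asIdeal)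
    (hv : PowMod l v x) : Spl L' M v := by
  have hlp : l.Prime := Fact.out
  have : NeZero l := ⟨hlp.ne_zero⟩
  rw [spl_bot]
  intro W hW σ hσ
  rw [Subgroup.mem_bot]
  have hsm : smulP σ W = W := HeightOneSpectrum.ext hσ
  obtain ⟨z, hz⟩ := hv
  have hWv : v.asIdeal = W.asIdeal.under (𝓞 L') := by
    rw [← hW]
    rfl
  have hlo : W.asIdeal.LiesOver v.asIdeal := ⟨hWv⟩
  have hWp := W.isPrime
  have he : v.asIdeal.ramificationIdx' W.asIdeal ≠ 0 :=
    Ideal.IsDedekindDomain.ramificationIdx'_ne_zero_of_liesOver W.asIdeal v.ne_bot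
  have hval : ∀ y : L', W.valuation M (algebraMap L' M y) =
      v.valuation L' y ^ (v.asIdeal.ramificationIdx' W.asIdeal) := fun y =>
    (HeightOneSpectrum.valuation_liesOver M v W y).symm
  -- the normalised root
  set u : M := β / algebraMap L' M z with hu
  have hz0 : algebraMap L' M z ≠ 0 := (map_ne_zero _).2 z.ne_zero
  have hul : u ^ l = algebraMap L' M ((x * (z ^ l)⁻¹ : L'ˣ) : L') := by
    rw [hu, div_pow, hβ, Units.val_mul, map_mul, Units.val_inv_eq_inv_val, map_inv₀, Units.val_pow_eq_pow_val,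
      map_pow, div_eq_mul_inv]
  have h1 : W.valuation M (u ^ l - 1) < 1 := by
    rw [hul, ← map_one (algebraMap L' M), ← map_sub, hval]
    exact pow_lt_one₀ zero_le hz he
  have hζM : IsPrimitiveRoot (algebraMap L' M ζ) l := hζ.map_of_injective (algebraMap L' M).injective
  have hu1 : W.valuation M (u ^ l) = 1 := by
    have e : u ^ l = 1 + (u ^ l - 1) := by ring
    rw [e, Valuation.map_add_eq_of_lt_left _ (by rw [map_one]; exact h1), map_one]
  have hW1 : W.valuation M u = 1 := by
    rw [map_pow] at hu1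
    exact (pow_eq_one_iff_of_nonneg zero_le hlp.ne_zero).1 hu1
  have hu0 : u ≠ 0 := by
    intro h0
    rw [h0, map_zero] at hW1
    exact zero_ne_one hW1
  -- one of the factors is small
  have hprod : u ^ l - 1 = ∏ y ∈ Polynomial.nthRootsFinset l (1 : M), (u - y) := by
    have h2 := hζM.pow_sub_pow_eq_prod_sub_mul u 1 hlp.pos
    rw [one_pow] at h2
    rw [h2]
    exact Finset.prod_congr rfl fun y _ => by rw [mul_one]
  have hex : ∃ i, W.valuation M (u - algebraMap L' M ζ ^ i) < 1 := by
    by_contra hcon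
    rw [hprod, map_prod] at h1
    refine absurd h1 (not_lt.2 (Finset.one_le_prod' fun y hy => ?_))
    rw [Polynomial.mem_nthRootsFinset hlp.pos] at hy
    obtain ⟨i, -, hi⟩ := hζM.eq_pow_of_pow_eq_one hy
    rw [← hi]
    exact not_lt.1 fun h3 => hcon ⟨i, h3⟩
  obtain ⟨i, hi⟩ := hex
  have hi2 : W.valuation M (σ u - algebraMap L' M ζ ^ i) < 1 := by
    have h2 := d2_inv W σ hsm (u - algebraMap L' M ζ ^ i)
    rw [map_sub, map_pow, AlgEquiv.commutes] at h2
    rw [h2]
    exact hi
  have h3 : W.valuation M (σ u - u) < 1 := by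
    have e : σ u - u = (σ u - algebraMap L' M ζ ^ i) - (u - algebraMap L' M ζ ^ i) := by ring
    rw [e]
    exact lt_of_le_of_lt (Valuation.map_sub _ _ _) (max_lt hi2 hi)
  -- the quotient
  set η : M := σ u / u with hη
  have hηl : η ^ l = 1 := by
    rw [hη, div_pow, ← map_pow, hul, AlgEquiv.commutes, div_self]
    rw [← hul]
    exact pow_ne_zero _ hu0
  have h4 : W.valuation M (η - 1) < 1 := by
    have e : η - 1 = (σ u - u) / u := by
      rw [hη]
      field_simp
    rw [e, map_div₀, hW1, div_one]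
    exact h3
  have h5 : η = 1 := by
    by_contra hne
    have h6 : ∑ i ∈ Finset.range l, η ^ i = 0 := by
      have h7 := mul_geom_sum η l
      rw [hηl, sub_self] at h7
      exact (mul_eq_zero.1 h7).resolve_left (sub_ne_zero.2 hne)
    have hη1 : W.valuation M η = 1 := by
      have e : η = 1 + (η - 1) := by ring
      rw [e, Valuation.map_add_eq_of_lt_left _ (by rw [map_one]; exact h4), map_one]
    have h8 : ∀ i : ℕ, W.valuation M (η ^ i - 1) < 1 := by
      intro i
      rw [← mul_geom_sum, map_mul]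
      have h9 : W.valuation M (∑ j ∈ Finset.range i, η ^ j) ≤ 1 := by
        apply Valuation.map_sum_le
        intro j _
        rw [map_pow, hη1, one_pow]
      calc W.valuation M (η - 1) * W.valuation M (∑ j ∈ Finset.range i, η ^ j)
          ≤ W.valuation M (η - 1) * 1 := mul_le_mul_right h9 _
        _ < 1 := by rw [mul_one]; exact h4
    have h10 : W.valuation M (l : M) < 1 := by
      have e : (l : M) = -∑ i ∈ Finset.range l, (η ^ i - 1) := by
        rw [Finset.sum_sub_distrib, h6]
        simp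
      rw [e, Valuation.map_neg]
      apply Valuation.map_sum_lt _ one_ne_zero
      intro i _
      exact h8 i
    have h11 : v.valuation L' (l : L') = 1 := by
      have h12 : v.valuation L' (algebraMap (𝓞 L') L' (l : 𝓞 L')) ≤ 1 :=
        HeightOneSpectrum.valuation_le_one (K := L') v (l : 𝓞 L')
      have h13 : ¬ v.valuation L' (algebraMap (𝓞 L') L' (l : 𝓞 L')) < 1 :=
        (not_congr (HeightOneSpectrum.valuation_lt_one_iff_mem (K := L') v (l : 𝓞 L'))).2 hl
      rw [map_natCast] at h12 h13
      exact le_antisymm h12 (not_lt.1 h13)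
    have h14 := hval (l : L')
    rw [map_natCast, h11, one_pow] at h14
    exact absurd h10 (by rw [h14]; exact lt_irrefl _)
  have h15 : σ u = u := by
    rw [hη, div_eq_one_iff_eq hu0] at h5
    exact h5
  apply hgen
  have h16 : β = u * algebraMap L' M z := by
    rw [hu]
    field_simp
  rw [h16, map_mul, h15, AlgEquiv.commutes]

end H55K.Ab
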