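import Mathlib
import Pool.Agent.Lib.H55K.A.Defs
import Pool.Agent.Lib.H55R.BF3
import Pool.Agent.Lib.H55R.X9
import Pool.Agent.Lib.H55R.HC4

/-!
Chunk D3 (M). The ray class character of L' defined by θ.
PROOF. Choose v0 with θ v0 ≠ 0 and W0 above v0; f0 = fs L L' v0 divides [L':L] (card_above), so (f0 : k) ≠ 0 (CharP k l, coprime). ρ ≠ 0 (hρ), so there is c : k with ρ(c * (f0 * θ v0)) ≠ 0.
Let e : ZMod l → ℂˣ be the additive character: e(t) = exp(2 π i t/l) (ZMod.toCircle or ZMod.rootsOfUnity..; a monoid hom Multiplicative (ZMod l) → ℂˣ which is injective).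
φ0 W = e(ρ(c * (fs L L' v * θ v))), v = W.under (𝓞 L). For x ∈ 𝓞 L' nonzero: pv φ0 (span x) = e(ρ(c * sum_W ord W x * f_W θ(W.under))) = e(ρ(c * sum_v ord v (N x) θ v)) = 1: pv over the prime
factorisation (HC4.pv_elem expresses pv by orders), ord_norm: ord v (nrm x) = fs * sum_{W | v} ord W x, and IsTh.princ for nrm x. So φ0 ∈ RC ⊤ (⊤ ≤ v.asIdeal is impossible), φ = resF f φ0 ∈ RC f (resF_RC, f ≤ ⊤), φ ≠ 1
by resF_one because φ0 W0 ≠ 1. φ^l = 1 because l • t = 0 in ZMod l. If θ (W.under) = 0 then φ W = e 0 = 1.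
-/

open NumberField IsDedekindDomain

namespace H55K.Ab

open H55R

variable {F : Type} [Field F] [NumberField F]

/-- The additive character of ZMod l with values in the units of the complex numbers. -/
private noncomputable def D3_e (l : ℕ) [NeZero l] (t : ZMod l) : ℂˣ :=
  Circle.toUnits (ZMod.toCircle t)

private theorem D3_e_add (l : ℕ) [NeZero l] (a b : ZMod l) : D3_e l (a + b) = D3_e l a * D3_e l b := by
  unfold D3_e
  rw [AddChar.map_add_eq_mul, map_mul]

private theorem D3_e_zero (l : ℕ) [NeZero l] : D3_e l 0 = 1 := by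
  unfold D3_e
  rw [AddChar.map_zero_eq_one, map_one]

private noncomputable def D3_hom (l : ℕ) [NeZero l] : Multiplicative (ZMod l) →* ℂˣ where
  toFun t := D3_e l t.toAdd
  map_one' := D3_e_zero l
  map_mul' a b := D3_e_add l a.toAdd b.toAdd

private theorem D3_e_zsmul (l : ℕ) [NeZero l] (n : ℤ) (a : ZMod l) : D3_e l (n • a) = D3_e l a ^ n :=
  map_zpow (D3_hom l) (Multiplicative.ofAdd a) n

private theorem D3_e_sum (l : ℕ) [NeZero l] {ι : Type} (s : Finset ι) (f : ι → ZMod l) :
    D3_e l (∑ i ∈ s, f i) = ∏ i ∈ s, D3_e l (f i) := by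
  classical
  induction s using Finset.induction_on with
  | empty => rw [Finset.sum_empty, Finset.prod_empty, D3_e_zero]
  | insert a s ha ih => rw [Finset.sum_insert ha, Finset.prod_insert ha, D3_e_add, ih]

private theorem D3_zpow {ι : Type} (s : Finset ι) (f : ι → ℤ) (a : ℂˣ) :
    ∏ i ∈ s, a ^ f i = a ^ ∑ i ∈ s, f i := by
  classical
  induction s using Finset.induction_on with
  | empty => rw [Finset.sum_empty, Finset.prod_empty, zpow_zero]
  | insert a s ha ih => rw [Finset.sum_insert ha, Finset.prod_insert ha, zpow_add, ih]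

private theorem D3_e_inj (l : ℕ) [NeZero l] {t : ZMod l} (h : D3_e l t = 1) : t = 0 := by
  apply ZMod.injective_toCircle
  rw [AddChar.map_zero_eq_one]
  have h1 : ((D3_e l t : ℂˣ) : ℂ) = 1 := by rw [h]; rfl
  apply Subtype.ext
  exact h1

theorem theta_char {L L' : Type} [Field L] [NumberField L] [Algebra F L] [Field L']
    [NumberField L'] [Algebra L L'] [IsGalois L L'] {l : ℕ} [Fact l.Prime]
    (hc : (Module.finrank L L').Coprime l) {k : Type} [Field k] [CharP k l]
    {χ : Gal(L/F) →* kˣ} (ρ : k →+ ZMod l) (hρ : ρ ≠ 0) {θ : Pl L → k} (hθ : IsTh χ θ)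
    (h0 : ∃ v, θ v ≠ 0) (f : Ideal (𝓞 L')) (hf : f ≠ ⊥) :
    ∃ φ ∈ RC f, φ ≠ 1 ∧ φ ^ l = 1 ∧ ∀ W : Pl L', θ (W.under (𝓞 L)) = 0 → φ W = 1 := by
  classical
  have hl : l.Prime := Fact.out
  have : NeZero l := ⟨hl.ne_zero⟩
  obtain ⟨v0, hv0⟩ := h0
  obtain ⟨W0, hW0⟩ := under_exists (L := L') v0
  have hf0 : ((fs L L' v0 : ℕ) : k) ≠ 0 := by
    intro h
    rw [CharP.cast_eq_zero_iff k l] at h
    have h1 := card_above v0 (above_finite (L := L') v0).toFinset (fun W => by simp)
    have h2 : l ∣ Module.finrank L L' := by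
      rw [← h1]
      exact Dvd.dvd.mul_left (Dvd.dvd.mul_left h _) _
    have h3 : l ∣ 1 := by
      have := Nat.dvd_gcd h2 (dvd_refl l)
      rwa [hc] at this
    exact hl.one_lt.ne' (Nat.dvd_one.1 h3)
  obtain ⟨a, ha⟩ : ∃ a, ρ a ≠ 0 := by
    by_contra hne
    push Not at hne
    exact hρ (AddMonoidHom.ext hne)
  obtain ⟨c, hcc⟩ : ∃ c : k, c * ((fs L L' v0 : ℕ) * θ v0) = a :=
    ⟨a / ((fs L L' v0 : ℕ) * θ v0), div_mul_cancel₀ _ (mul_ne_zero hf0 hv0)⟩
  let φ0 : Pl L' → ℂˣ := fun W =>
    D3_e l (ρ (c * ((fs L L' (W.under (𝓞 L)) : ℕ) * θ (W.under (𝓞 L)))))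
  have hpv : ∀ x : 𝓞 L', x ≠ 0 → pv φ0 (Ideal.span {x}) = 1 := by
    intro x hx
    have hx' : (x : L') ≠ 0 := by
      intro h
      exact hx (RingOfIntegers.ext (by rw [h]; rfl))
    let y : L'ˣ := Units.mk0 (x : L') hx'
    have hy : (y : L') = x := rfl
    -- primes containing x are finite
    have hfin : {W : Pl L' | x ∈ W.asIdeal}.Finite := by
      have h1 : (Ideal.span {x} : Ideal (𝓞 L')) ≠ 0 := by
        rw [Ne, Ideal.zero_eq_bot, Ideal.span_singleton_eq_bot]
        exact hx
      refine (Ideal.finite_factors h1).subset fun W hW => ?_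
      exact Ideal.dvd_span_singleton.2 hW
    let V : Finset (Pl L) := hfin.toFinset.image (fun W => W.under (𝓞 L))
    let U : Finset (Pl L') := V.biUnion fun v => (above_finite (L := L') v).toFinset
    have hU : ∀ W : Pl L', x ∈ W.asIdeal → W ∈ U := by
      intro W hW
      rw [Finset.mem_biUnion]
      refine ⟨W.under (𝓞 L), ?_, ?_⟩
      · rw [Finset.mem_image]
        exact ⟨W, by simpa using hW, rfl⟩
      · simp
    rw [pv_elem φ0 x y hy U hU, Finset.prod_biUnion]
    swap
    · intro v _ v' _ hne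
      rw [Function.onFun, Finset.disjoint_left]
      intro W h1 h2
      simp only [Set.Finite.mem_toFinset, Set.mem_ofPred_eq] at h1 h2
      exact hne (h1.symm.trans h2)
    have hstep : ∀ v ∈ V, ∏ W ∈ (above_finite (L := L') v).toFinset, φ0 W ^ ord W y =
        D3_e l (ρ (c * ((ord v (nrm L L' y) : k) * θ v))) := by
      intro v _
      have h1 : ∀ W ∈ (above_finite (L := L') v).toFinset, φ0 W ^ ord W y =
          D3_e l (ρ (c * ((fs L L' v : ℕ) * θ v))) ^ ord W y := by
        intro W hW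
        simp only [Set.Finite.mem_toFinset, Set.mem_ofPred_eq] at hW
        simp only [φ0]
        rw [hW]
      rw [Finset.prod_congr rfl h1, D3_zpow, ← D3_e_zsmul, ← map_zsmul]
      congr 2
      rw [ord_norm v (above_finite (L := L') v).toFinset (fun W => by simp) y, zsmul_eq_mul]
      push_cast
      ring
    rw [Finset.prod_congr rfl hstep, ← D3_e_sum, ← map_sum, ← Finset.mul_sum]
    have hsum : ∑ v ∈ V, (ord v (nrm L L' y) : k) * θ v = 0 := by
      have h1 := hθ.princ (nrm L L' y)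
      rw [finsum_eq_sum_of_support_subset _ (s := V)] at h1
      · exact h1
      · intro v hv
        rw [Function.mem_support] at hv
        by_contra hvV
        apply hv
        have h2 : ord v (nrm L L' y) = 0 := by
          rw [ord_norm v (above_finite (L := L') v).toFinset (fun W => by simp) y]
          rw [Finset.sum_eq_zero, mul_zero]
          intro W hW
          simp only [Set.Finite.mem_toFinset, Set.mem_ofPred_eq] at hW
          apply HC4_zero x y hy
          intro hxW
          apply hvV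
          simp only [V, Finset.coe_image, Set.mem_image, Finset.mem_coe, Set.Finite.mem_toFinset,
            Set.mem_ofPred_eq]
          exact ⟨W, hxW, hW⟩
        rw [h2]
        simp
    rw [hsum, mul_zero, map_zero, D3_e_zero]
  have hRC : φ0 ∈ RC (⊤ : Ideal (𝓞 L')) := by
    refine ⟨fun v hv => absurd (top_unique hv) v.isPrime.ne_top, fun x y hx hy _ _ => ?_⟩
    rw [hpv x hx, hpv y hy]
  refine ⟨resF f φ0, resF_RC ⊤ f le_top φ0 hRC, ?_, ?_, ?_⟩
  · intro h
    have h1 := resF_one ⊤ f le_top hf φ0 hRC h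
    have h2 := congrFun h1 W0
    simp only [φ0, Pi.one_apply] at h2
    rw [hW0] at h2
    have h3 := D3_e_inj l h2
    rw [hcc] at h3
    exact ha h3
  · funext W
    rw [Pi.pow_apply, Pi.one_apply]
    unfold resF
    split_ifs with h
    · exact one_pow l
    · have h1 : D3_e l (ρ (c * ((fs L L' (W.under (𝓞 L)) : ℕ) * θ (W.under (𝓞 L))))) ^ (l : ℤ) = 1 := by
        rw [← D3_e_zsmul, zsmul_eq_mul]
        rw [show (((l : ℤ) : ZMod l)) = 0 by simp, zero_mul, D3_e_zero]
      exact_mod_cast h1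
  · intro W hW
    unfold resF
    split_ifs with h
    · rfl
    · simp only [φ0]
      rw [hW, mul_zero, mul_zero, map_zero, D3_e_zero]

end H55K.Ab
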