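import Mathlib
import Pool.Agent.Lib.H55K.A.D1
import Pool.Agent.Lib.H55K.A.D2
import Pool.Agent.Lib.H55K.A.D3
import Pool.Agent.Lib.H55R.X10
import Pool.Agent.Lib.H55R.X12

/-!
Chunk D5 (M/L). The choice of the auxiliary prime (assembly of D1, D2, D3, H55R.density_split, H55R.density_ker).
-/

open NumberField IsDedekindDomain

namespace H55K.Ab

open H55R

variable {F : Type} [Field F] [NumberField F]

/-- Primes outside four sets of small density. -/
theorem d5_out {K : Type} [Field K] [NumberField K] (A S N R : Set (Pl K)) (hR : R.Finite)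
    (l : ℕ) (hl : 3 ≤ l) (C₁ C₂ C₃ : ℝ)
    (hA : ∀ s ∈ Set.Ioc (1 : ℝ) 2, PS A s ≤ (1 / l : ℝ) * Real.log (1 / (s - 1)) + C₁)
    (hS : ∀ s ∈ Set.Ioc (1 : ℝ) 2, PS S s ≤ (1 / l : ℝ) * Real.log (1 / (s - 1)) + C₂)
    (hN : ∀ s ∈ Set.Ioc (1 : ℝ) 2, PS N s ≤ C₃) :
    ∃ v : Pl K, v ∉ A ∧ v ∉ S ∧ v ∉ N ∧ v ∉ R := by
  by_contra hcon
  push Not at hcon
  obtain ⟨C₀, hC₀⟩ := density_A K K ⊤ inferInstance
  have hU : {v : Pl K | SplA (⊤ : Subgroup Gal(K/K)) v} ⊆ A ∪ (S ∪ (N ∪ R)) := by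
    intro v _
    by_cases h1 : v ∈ A
    · exact Or.inl h1
    by_cases h2 : v ∈ S
    · exact Or.inr (Or.inl h2)
    by_cases h3 : v ∈ N
    · exact Or.inr (Or.inr (Or.inl h3))
    exact Or.inr (Or.inr (Or.inr (hcon v h1 h2 h3)))
  have hidx : ((⊤ : Subgroup Gal(K/K)).index : ℝ) = 1 := by
    rw [Subgroup.index_top, Nat.cast_one]
  have key : ∀ s ∈ Set.Ioc (1 : ℝ) 2, 1 * Real.log (1 / (s - 1)) ≤
      (2 / l : ℝ) * Real.log (1 / (s - 1)) + (C₁ + C₂ + C₃ + hR.toFinset.card + C₀) := by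
    intro s hs
    have h1 := X10_mono hU s hs.1
    have h2 := X10_union A (S ∪ (N ∪ R)) s hs.1
    have h3 := X10_union S (N ∪ R) s hs.1
    have h4 := X10_union N R s hs.1
    have n2 := X10_nonneg (A ∩ (S ∪ (N ∪ R))) s
    have n3 := X10_nonneg (S ∩ (N ∪ R)) s
    have n4 := X10_nonneg (N ∩ R) s
    have h5 := X10_fin hR s hs.1
    have h6 := hC₀ s hs
    rw [hidx, abs_le] at h6
    have h7 := hA s hs
    have h8 := hS s hs
    have h9 := hN s hs
    have h10 : (2 / l : ℝ) * Real.log (1 / (s - 1)) = (1 / l : ℝ) * Real.log (1 / (s - 1)) +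
        (1 / l : ℝ) * Real.log (1 / (s - 1)) := by ring
    rw [h10]
    linarith [h6.1]
  have h1 := X10_lim key
  have h2 : (3 : ℝ) ≤ l := by exact_mod_cast hl
  have h3 : (0 : ℝ) < l := by linarith
  rw [le_div_iff₀ h3] at h1
  linarith

theorem d5_order {K : Type} [Field K] [NumberField K] {l : ℕ} [Fact l.Prime] (ζ : K)
    (hζ : IsPrimitiveRoot ζ l) (W : Pl K) (hl : (l : 𝓞 K) ∉ W.asIdeal) :
    l ∣ Ideal.absNorm W.asIdeal - 1 := by
  classical
  have hlp : l.Prime := Fact.out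
  have hmax := W.isMaximal
  have hint : IsIntegral ℤ ζ := hζ.isIntegral hlp.pos
  obtain ⟨z, hz⟩ : ∃ z : 𝓞 K, (z : K) = ζ := ⟨⟨ζ, hint⟩, rfl⟩
  have hz1 : z ^ l = 1 := by
    apply RingOfIntegers.coe_injective
    rw [map_pow, map_one]
    show (z : K) ^ l = 1
    rw [hz]
    exact hζ.pow_eq_one
  have hzne : z ≠ 1 := by
    intro h
    have h1 : ζ = 1 := by
      rw [← hz, h]
      exact map_one (algebraMap (𝓞 K) K)
    exact hζ.ne_one hlp.one_lt h1
  have hsum : ∑ i ∈ Finset.range l, z ^ i = 0 := by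
    have h := mul_geom_sum z l
    rw [hz1, sub_self] at h
    rcases mul_eq_zero.1 h with h1 | h1
    · exact absurd (sub_eq_zero.1 h1) hzne
    · exact h1
  letI : Field (𝓞 K ⧸ W.asIdeal) := Ideal.Quotient.field W.asIdeal
  have hfin : Finite (𝓞 K ⧸ W.asIdeal) := Ideal.finiteQuotientOfFreeOfNeBot _ W.ne_bot
  obtain ⟨y, hy⟩ : ∃ y : 𝓞 K ⧸ W.asIdeal, y = Ideal.Quotient.mk W.asIdeal z := ⟨_, rfl⟩
  have hy1 : y ^ l = 1 := by
    rw [hy, ← map_pow, hz1, map_one]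
  have hyne : y ≠ 1 := by
    intro h
    have h1 := congrArg (Ideal.Quotient.mk W.asIdeal) hsum
    rw [map_sum, map_zero] at h1
    simp only [map_pow] at h1
    rw [← hy, h] at h1
    simp only [one_pow, Finset.sum_const, Finset.card_range, nsmul_eq_mul, mul_one] at h1
    apply hl
    rw [← Ideal.Quotient.eq_zero_iff_mem, map_natCast]
    exact h1
  have hy0 : y ≠ 0 := by
    rintro rfl
    rw [zero_pow hlp.ne_zero] at hy1
    exact zero_ne_one hy1
  have hord : orderOf (Units.mk0 y hy0) = l := by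
    apply orderOf_eq_prime
    · ext
      rw [Units.val_pow_eq_pow_val, Units.val_mk0, hy1, Units.val_one]
    · intro h
      apply hyne
      have := congrArg Units.val h
      rwa [Units.val_mk0, Units.val_one] at this
  have h1 := orderOf_dvd_natCard (Units.mk0 y hy0)
  rw [hord, Nat.card_units] at h1
  exact h1

theorem d5_powmod {L L' : Type} [Field L] [NumberField L] [Field L'] [NumberField L']
    [Algebra L L'] {l : ℕ} (W : Pl L') (η : Lˣ) (h : PowMod l (W.under (𝓞 L)) η) :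
    PowMod l W (Units.map (algebraMap L L' : L →* L') η) := by
  obtain ⟨z, hz⟩ := h
  refine ⟨Units.map (algebraMap L L' : L →* L') z, ?_⟩
  have hl : W.asIdeal.LiesOver (W.under (𝓞 L)).asIdeal := ⟨rfl⟩
  have h1 := HeightOneSpectrum.valuation_liesOver L' (W.under (𝓞 L)) W
    (((η * (z ^ l)⁻¹ : Lˣ) : L) - 1)
  have h2 : algebraMap L L' (((η * (z ^ l)⁻¹ : Lˣ) : L) - 1) =
      (((Units.map (algebraMap L L' : L →* L') η *
        ((Units.map (algebraMap L L' : L →* L') z) ^ l)⁻¹ : L'ˣ) : L') - 1) := by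
    rw [map_sub, map_one, ← map_pow, ← map_inv, ← map_mul]
    rfl
  rw [h2] at h1
  rw [← h1]
  exact pow_lt_one₀ (zero_le) hz (Ideal.IsDedekindDomain.ramificationIdx'_ne_zero_of_liesOver W.asIdeal
    (W.under (𝓞 L)).ne_bot)

theorem d5_above {K L : Type} [Field K] [NumberField K] [Field L] [NumberField L] [Algebra K L]
    [IsGalois K L] {S : Set (Pl K)} (hS : S.Finite) : {W : Pl L | W.under (𝓞 K) ∈ S}.Finite := by
  have h1 : {W : Pl L | W.under (𝓞 K) ∈ S} = ⋃ v ∈ S, {W : Pl L | W.under (𝓞 K) = v} := by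
    ext W
    simp only [Set.mem_ofPred_eq, Set.mem_iUnion, exists_prop, exists_eq_right']
  rw [h1]
  exact hS.biUnion fun v _ => above_finite v

theorem select {L : Type} [Field L] [NumberField L] [Algebra F L] [IsGalois F L] {l : ℕ}
    [Fact l.Prime] (h5 : 5 ≤ l) {k : Type} [Field k] [CharP k l] {χ : Gal(L/F) →* kˣ}
    (ρ : k →+ ZMod l) (hρ : ρ ≠ 0) {θ : Pl L → k} (hθ : IsTh χ θ) (h0 : ∃ v, θ v ≠ 0) (η : Lˣ)
    (hη : ¬ ∃ z : Lˣ, η = z ^ l) (bad : Set (Pl L)) (hbad : bad.Finite) :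
    ∃ Q : Pl L, Q ∉ bad ∧ (Ideal.absNorm Q.asIdeal).Prime ∧ l ∣ Ideal.absNorm Q.asIdeal - 1 ∧
      es F L (Q.under (𝓞 F)) = 1 ∧ θ Q ≠ 0 ∧ ¬ PowMod l Q η := by
  classical
  have hlp : l.Prime := Fact.out
  obtain ⟨L', i1, i2, i3, i4, i5, ζ, hζ, hc⟩ := exists_cyc L l h5
  obtain ⟨x, hxdef⟩ : ∃ x : L'ˣ, x = Units.map (algebraMap L L' : L →* L') η := ⟨_, rfl⟩
  have hx : ¬ ∃ z : L'ˣ, x = z ^ l := by
    intro h
    rw [hxdef] at h
    exact hη (not_pow hc η h)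
  obtain ⟨M, j1, j2, j3, j4, β, hM, hβ, hgen⟩ := kummer ζ hζ x hx
  obtain ⟨f, hfdef⟩ : ∃ f : Ideal (𝓞 L'), f = Ideal.span {(l : 𝓞 L')} := ⟨_, rfl⟩
  have hf : f ≠ ⊥ := by
    rw [hfdef, Ne, Ideal.span_singleton_eq_bot]
    exact Nat.cast_ne_zero.2 hlp.ne_zero
  have hf' : f ≠ ⊤ := by
    rw [hfdef]
    intro h
    have h2 : Ideal.absNorm (Ideal.span {(l : 𝓞 L')}) = 1 := by
      rw [h]
      exact Ideal.absNorm_top
    rw [Ideal.absNorm_span_singleton] at h2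
    have h3 : (Algebra.norm ℤ (l : 𝓞 L')) = (l : ℤ) ^ Module.finrank ℤ (𝓞 L') := by
      have := Algebra.norm_algebraMap (S := 𝓞 L') (l : ℤ)
      rw [map_natCast] at this
      exact this
    rw [h3, Int.natAbs_pow, Int.natAbs_natCast] at h2
    have h4 : 0 < Module.finrank ℤ (𝓞 L') := Module.finrank_pos
    have h6 := Nat.one_lt_pow h4.ne' hlp.one_lt
    omega
  obtain ⟨φ, hφ, hφ1, hφl, hφθ⟩ := theta_char hc ρ hρ hθ h0 f hf
  have hord : orderOf φ = l := orderOf_eq_prime hφl hφ1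
  have hcard : Nat.card (Subgroup.zpowers φ) = l := by
    rw [Nat.card_zpowers, hord]
  have hYfin : Finite (Subgroup.zpowers φ) := Nat.finite_of_card_ne_zero (by
    rw [hcard]
    exact hlp.ne_zero)
  have hY : Subgroup.zpowers φ ≤ RC f := by
    rw [Subgroup.zpowers_le]
    exact hφ
  obtain ⟨C₁, hC₁⟩ := density_ker f hf hf' (Subgroup.zpowers φ) hY
  obtain ⟨C₂, hC₂⟩ := density_split L' M
  obtain ⟨C₃, hC₃⟩ := deg_bound L'
  rw [hcard] at hC₁
  rw [hM] at hC₂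
  -- the finite set
  obtain ⟨bad', hbad'def⟩ : ∃ bad' : Set (Pl L), bad' = bad ∪
    {v : Pl L | v.under (𝓞 F) ∈ {u : Pl F | es F L u ≠ 1}} := ⟨_, rfl⟩
  have hbad' : bad'.Finite := by
    rw [hbad'def]
    exact hbad.union (d5_above (ram_fin F L))
  have hR : ({W : Pl L' | f ≤ W.asIdeal} ∪ {W : Pl L' | W.under (𝓞 L) ∈ bad'}).Finite :=
    (X10_bad hf).union (d5_above hbad')
  obtain ⟨W, hWA, hWS, hWN, hWR⟩ := d5_out
    {v : Pl L' | ¬ f ≤ v.asIdeal ∧ ∀ ψ ∈ Subgroup.zpowers φ, ψ v = 1} {v : Pl L' | Spl L' M v}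
    {v : Pl L' | ¬ (Ideal.absNorm v.asIdeal).Prime} _ hR l (by omega) C₁ C₂ C₃ hC₁
    (fun s hs => by
      have := (abs_le.1 (hC₂ s hs)).2
      linarith) hC₃
  have hfW : ¬ f ≤ W.asIdeal := fun h => hWR (Or.inl h)
  have hlW : (l : 𝓞 L') ∉ W.asIdeal := by
    intro h
    apply hfW
    rw [hfdef, Ideal.span_singleton_le_iff_mem]
    exact h
  have hWb : W.under (𝓞 L) ∉ bad' := fun h => hWR (Or.inr h)
  have hWp : (Ideal.absNorm W.asIdeal).Prime := by
    by_contra h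
    exact hWN h
  have hnorm := D5_norm (W.under (𝓞 L)) W rfl
  have hQp : (Ideal.absNorm (W.under (𝓞 L)).asIdeal).Prime ∧
      Ideal.absNorm W.asIdeal = Ideal.absNorm (W.under (𝓞 L)).asIdeal := by
    rw [hnorm] at hWp
    have h1 : fs L L' (W.under (𝓞 L)) = 1 := hWp.eq_one_of_pow
    rw [h1, pow_one] at hWp
    rw [h1, pow_one] at hnorm
    exact ⟨hWp, hnorm⟩
  refine ⟨W.under (𝓞 L), ?_, hQp.1, ?_, ?_, ?_, ?_⟩
  · intro h
    apply hWb
    rw [hbad'def]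
    exact Or.inl h
  · rw [← hQp.2]
    exact d5_order ζ hζ W hlW
  · by_contra h
    apply hWb
    rw [hbad'def]
    exact Or.inr h
  · intro h
    apply hWA
    refine ⟨hfW, fun ψ hψ => ?_⟩
    obtain ⟨n, rfl⟩ := Subgroup.mem_zpowers_iff.1 hψ
    rw [Pi.pow_apply, hφθ W h, one_zpow]
  · intro h
    apply hWS
    have h1 := d5_powmod W η h
    rw [← hxdef] at h1
    exact kummer_spl ζ hζ x β hβ hgen W hlW h1

end H55K.Ab
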