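import Mathlib
import Pool.Agent.Lib.H55R.BF2
import Pool.Agent.Lib.H55R.HB1

/-!
Chunk T2 (M). Tame residues. v a prime of L, totally ramified in B (es L B v = card Gal(B/L), so fs = 1 and there is one prime W above v).
PROOF. card_above: card T * (es * fs) = finrank = card Gal = es, so fs L B v = 1. h acts trivially on the residue field: every x ∈ 𝓞 B is congruent modulo W to an element x0 of 𝓞 L (residue
degree 1: Ideal.inertiaDeg = finrank of the residue extension = 1, the algebra map 𝓞 L / v → 𝓞 B / W is surjective), h x = x0 modulo smulP h W = W (W is the only prime above v), so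
W.valuation (h x - x) < 1; for u = x/y of order 0 at W with x, y ∈ 𝓞 B prime to W (exists_frac): W.valuation (h u / u - 1) < 1.
Let j = ord W b, u = b / t^j (ord 0). al = h b / b = (h t / t)^j * (h u / u). From tame: W.valuation (h t / t - κ) ≤ exp(-1) < 1 (W.valuation t = exp(-1), BF1_val), W.valuation (h t / t) = 1
(ord_smul, h W = W), so W.valuation κ = 1 and (h t / t)^j / κ^j is congruent to 1. So al / κ^j is congruent to 1, and with congr: W.valuation (ξ - κ^j) < 1 in B. The element
ξ - κ^j lies in L: by ord_map (or valuation_liesOver) its valuation at v is < 1. Also ord v κ = 0.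
-/

open NumberField IsDedekindDomain

namespace H55K.Ab

open H55R

variable {F : Type} [Field F] [NumberField F]

section T2

/-- A principal unit has value one. -/
theorem T2_val {K Γ : Type*} [Field K] [LinearOrderedCommGroupWithZero Γ] (v : Valuation K Γ) {x : K}
    (h : v (x - 1) < 1) : v x = 1 := by
  have h1 := v.map_one_add_of_lt h
  rwa [add_sub_cancel] at h1

/-- The principal units of a valuation. -/
def T2_U {K Γ : Type*} [Field K] [LinearOrderedCommGroupWithZero Γ] (v : Valuation K Γ) : Subgroup Kˣ where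
  carrier := {x | v ((x : K) - 1) < 1}
  mul_mem' := by
    intro a b ha hb
    show v (((a * b : Kˣ) : K) - 1) < 1
    have e : ((a * b : Kˣ) : K) - 1 = (a : K) * ((b : K) - 1) + ((a : K) - 1) := by
      rw [Units.val_mul]
      ring
    rw [e]
    refine v.map_add_lt ?_ ha
    rw [map_mul, T2_val v ha, one_mul]
    exact hb
  one_mem' := by
    show v (((1 : Kˣ) : K) - 1) < 1
    rw [Units.val_one, sub_self, map_zero]
    exact zero_lt_one
  inv_mem' := by
    intro a ha
    show v (((a⁻¹ : Kˣ) : K) - 1) < 1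
    have e : ((a⁻¹ : Kˣ) : K) - 1 = -(((a : K)⁻¹) * ((a : K) - 1)) := by
      rw [Units.val_inv_eq_inv_val]
      have := a.ne_zero
      field_simp
      ring
    rw [e, Valuation.map_neg, map_mul, map_inv₀, T2_val v ha, inv_one, one_mul]
    exact ha

theorem T2_mem {K Γ : Type*} [Field K] [LinearOrderedCommGroupWithZero Γ] (v : Valuation K Γ) (x : Kˣ) :
    x ∈ T2_U v ↔ v ((x : K) - 1) < 1 := Iff.rfl

/-- The quotient is a principal unit if the difference is small. -/
theorem T2_div {K Γ : Type*} [Field K] [LinearOrderedCommGroupWithZero Γ] (v : Valuation K Γ) (x y : Kˣ)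
    (h : v ((x : K) - y) < v (y : K)) : x / y ∈ T2_U v := by
  rw [T2_mem]
  have hy : v (y : K) ≠ 0 := (v.ne_zero_iff).2 y.ne_zero
  have e : ((x / y : Kˣ) : K) - 1 = ((x : K) - y) / y := by
    rw [Units.val_div_eq_div_val, sub_div, div_self y.ne_zero]
  rw [e, map_div₀]
  exact (div_lt_one₀ (zero_lt_iff.2 hy)).2 h

theorem T2_div' {K Γ : Type*} [Field K] [LinearOrderedCommGroupWithZero Γ] (v : Valuation K Γ) (x y : Kˣ)
    (hy : v (y : K) = 1) (h : x / y ∈ T2_U v) : v ((x : K) - y) < 1 := by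
  rw [T2_mem] at h
  have e : (x : K) - y = (y : K) * (((x / y : Kˣ) : K) - 1) := by
    rw [Units.val_div_eq_div_val]
    have := y.ne_zero
    field_simp
  rw [e, map_mul, hy, one_mul]
  exact h

theorem T2_add {A : Type*} [AddCommGroup A] (a b x y z : A) :
    a - z = (a + b + -y - (b + -x)) + (y - (z + x)) := by
  abel

theorem T2_grp {A : Type*} [CommGroup A] (a b x y z : A) :
    a / z = (a * b * y⁻¹ / (b * x⁻¹)) * (y / (z * x)) :=
  T2_add (A := Additive A) (Additive.ofMul a) (Additive.ofMul b) (Additive.ofMul x) (Additive.ofMul y)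
    (Additive.ofMul z)

variable {L B : Type} [Field L] [NumberField L] [Field B] [NumberField B] [Algebra L B] [IsGalois L B]

/-- The Galois group is the inertia group of a totally ramified prime. -/
theorem T2_inertia (v : Pl L) (W : Pl B) (hW : W.under (𝓞 L) = v)
    (hr : es L B v = Nat.card Gal(B/L)) (h : Gal(B/L)) (x : 𝓞 B) : h • x - x ∈ W.asIdeal := by
  have hvm := v.isMaximal
  have hp := v.isPrime
  have hWp := W.isPrime
  have hl : W.asIdeal.LiesOver v.asIdeal := (BF2_mem v W hW).2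
  have h1 := Ideal.card_inertia_eq_ramificationIdxIn (G := Gal(B/L)) v.asIdeal W.asIdeal
  have h2 : Nat.card (W.asIdeal.inertia Gal(B/L)) = Nat.card Gal(B/L) := h1.trans hr
  have h3 : W.asIdeal.inertia Gal(B/L) = ⊤ := Subgroup.eq_top_of_card_eq _ h2
  have h4 : h ∈ W.asIdeal.inertia Gal(B/L) := by rw [h3]; exact Subgroup.mem_top h
  exact h4 x

open scoped Pointwise in
theorem T2_fix (v : Pl L) (W : Pl B) (hW : W.under (𝓞 L) = v)
    (hr : es L B v = Nat.card Gal(B/L)) (h : Gal(B/L)) : smulP h W = W := by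
  apply HeightOneSpectrum.ext
  have h1 : ∀ (g : Gal(B/L)) (x : 𝓞 B), x ∈ W.asIdeal → g • x ∈ W.asIdeal := by
    intro g x hx
    have := add_mem (T2_inertia v W hW hr g x) hx
    rwa [sub_add_cancel] at this
  show h • W.asIdeal = W.asIdeal
  ext x
  rw [Ideal.mem_pointwise_smul_iff_inv_smul_mem]
  refine ⟨fun h2 => ?_, fun h2 => h1 _ _ h2⟩
  have := h1 h _ h2
  rwa [smul_inv_smul] at this

theorem T2_ord (v : Pl L) (W : Pl B) (hW : W.under (𝓞 L) = v)
    (hr : es L B v = Nat.card Gal(B/L)) (h : Gal(B/L)) (y : Bˣ) :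
    ord W (Units.map ((h : B ≃ₐ[L] B) : B →* B) y) = ord W y := by
  have := ord_smul h W y
  rwa [T2_fix v W hW hr h] at this

/-- The Galois group acts trivially on the residue field. -/
theorem T2_res (v : Pl L) (W : Pl B) (hW : W.under (𝓞 L) = v)
    (hr : es L B v = Nat.card Gal(B/L)) (h : Gal(B/L)) (u : Bˣ) (hu : ord W u = 0) :
    Units.map ((h : B ≃ₐ[L] B) : B →* B) u / u ∈ T2_U (W.valuation B) := by
  apply T2_div
  rw [(HB1_ord_zero W u).1 hu]
  obtain ⟨x, y, hx, hy, hxy⟩ := exists_frac W u hu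
  have hint : ∀ a : 𝓞 B, a ∈ W.asIdeal → W.valuation B (algebraMap (𝓞 B) B a) < 1 := fun a ha =>
    (HeightOneSpectrum.valuation_lt_one_iff_mem (K := B) W a).2 ha
  have hy1 : W.valuation B (algebraMap (𝓞 B) B y) = 1 :=
    (HeightOneSpectrum.valuation_eq_one_iff_notMem (K := B) W).2 hy
  have hx1 : W.valuation B (algebraMap (𝓞 B) B x) ≤ 1 := W.valuation_le_one x
  have hhy : h • y ∉ W.asIdeal := by
    intro h1
    apply hy
    have := sub_mem h1 (T2_inertia v W hW hr h y)
    rwa [sub_sub_cancel] at this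
  have hhy1 : W.valuation B (algebraMap (𝓞 B) B (h • y)) = 1 :=
    (HeightOneSpectrum.valuation_eq_one_iff_notMem (K := B) W).2 hhy
  have hy0 : (algebraMap (𝓞 B) B y) ≠ 0 := by
    intro h0
    rw [h0, map_zero] at hy1
    exact zero_ne_one hy1
  have hhy0 : (algebraMap (𝓞 B) B (h • y)) ≠ 0 := by
    intro h0
    rw [h0, map_zero] at hhy1
    exact zero_ne_one hhy1
  have e1 : ((Units.map ((h : B ≃ₐ[L] B) : B →* B) u : Bˣ) : B) =
      algebraMap (𝓞 B) B (h • x) / algebraMap (𝓞 B) B (h • y) := by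
    show h (u : B) = _
    rw [hxy, map_div₀]
    rfl
  have e2 : (u : B) = algebraMap (𝓞 B) B x / algebraMap (𝓞 B) B y := hxy
  have e3 : ((Units.map ((h : B ≃ₐ[L] B) : B →* B) u : Bˣ) : B) - (u : B) =
      (algebraMap (𝓞 B) B (h • x - x) * algebraMap (𝓞 B) B y -
        algebraMap (𝓞 B) B x * algebraMap (𝓞 B) B (h • y - y)) /
        (algebraMap (𝓞 B) B (h • y) * algebraMap (𝓞 B) B y) := by
    rw [e1, e2, map_sub, map_sub]
    field_simp
    ring
  rw [e3, map_div₀, map_mul, hhy1, hy1, one_mul, div_one]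
  refine (W.valuation B).map_sub_lt ?_ ?_
  · rw [map_mul, hy1, mul_one]
    exact hint _ (T2_inertia v W hW hr h x)
  · rw [map_mul]
    exact (mul_le_of_le_one_left' hx1).trans_lt (hint _ (T2_inertia v W hW hr h y))

end T2

theorem tame_res {L B : Type} [Field L] [NumberField L] [Field B] [NumberField B] [Algebra L B]
    [IsGalois L B] (v : Pl L) (W : Pl B) (hW : W.under (𝓞 L) = v)
    (hr : es L B v = Nat.card Gal(B/L)) (h : Gal(B/L)) (al b t : Bˣ)
    (hb : Units.map ((h : B ≃ₐ[L] B) : B →* B) b = al * b) (ht : ord W t = 1) (κ : ℤ)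
    (hκ : W.valuation B (h (t : B) - κ * (t : B)) ≤ WithZero.exp (-2 : ℤ)) (ξ : Lˣ)
    (hξ : W.valuation B ((al : B) - algebraMap L B (ξ : L)) < 1) :
    v.valuation L (κ : L) = 1 ∧ v.valuation L ((ξ : L) - (κ : L) ^ ord W b) < 1 := by
  set σ : Bˣ →* Bˣ := Units.map ((h : B ≃ₐ[L] B) : B →* B) with hσ
  have hvt : W.valuation B (t : B) = WithZero.exp (-1 : ℤ) := by rw [BF1_val, ht]
  have hvst : W.valuation B ((σ t : Bˣ) : B) = WithZero.exp (-1 : ℤ) := by
    rw [BF1_val, T2_ord v W hW hr h t, ht]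
  have h12 : (WithZero.exp (-2 : ℤ)) < WithZero.exp (-1 : ℤ) := by
    rw [WithZero.exp_lt_exp]
    norm_num
  -- the integer is a unit
  have hvκt : W.valuation B ((κ : B) * (t : B)) = WithZero.exp (-1 : ℤ) := by
    have e : (κ : B) * (t : B) = ((σ t : Bˣ) : B) - (h (t : B) - κ * (t : B)) := by
      show _ = h (t : B) - _
      ring
    rw [e, Valuation.map_sub_eq_of_lt_left, hvst]
    rw [hvst]
    exact lt_of_le_of_lt hκ h12
  have hvκ : W.valuation B (κ : B) = 1 := by
    rw [map_mul, hvt] at hvκt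
    have h3 : (WithZero.exp (-1 : ℤ)) ≠ (0 : WithZero (Multiplicative ℤ)) := WithZero.exp_ne_zero
    exact mul_right_cancel₀ h3 (hvκt.trans (one_mul _).symm)
  have hκB : (κ : B) ≠ 0 := by
    intro h0
    rw [h0, map_zero] at hvκ
    exact zero_ne_one hvκ
  have hκ0 : κ ≠ 0 := by
    rintro rfl
    exact hκB Int.cast_zero
  have hκL : (κ : L) ≠ 0 := Int.cast_ne_zero.2 hκ0
  let kB : Bˣ := Units.mk0 _ hκB
  let kL : Lˣ := Units.mk0 _ hκL
  have hkm : Units.map (algebraMap L B : L →* B) kL = kB := by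
    ext
    show algebraMap L B (κ : L) = (κ : B)
    exact map_intCast _ _
  have hvL : v.valuation L (κ : L) = 1 := by
    have h4 : ord W kB = 0 := (HB1_ord_zero W kB).2 hvκ
    rw [← hkm, ord_map W v hW kL] at h4
    have h5 : (es L B v : ℤ) ≠ 0 := by
      have := es_pos (L := B) v
      exact_mod_cast this.ne'
    exact (HB1_ord_zero v kL).1 ((mul_eq_zero.1 h4).resolve_left h5)
  refine ⟨hvL, ?_⟩
  -- the congruences
  set U := T2_U (W.valuation B) with hU
  have c1 : σ t / (kB * t) ∈ U := by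
    apply T2_div
    have e : ((kB * t : Bˣ) : B) = (κ : B) * (t : B) := rfl
    rw [e, hvκt]
    exact lt_of_le_of_lt hκ h12
  have hu : ord W (b * (t ^ ord W b)⁻¹) = 0 := by
    rw [ord_mul, ord_inv, ord_zpow, ht]
    ring
  have c2 := T2_res v W hW hr h (b * (t ^ ord W b)⁻¹) hu
  rw [← hσ, ← hU, map_mul, map_inv, map_zpow, hb] at c2
  have c3 : al / kB ^ ord W b ∈ U := by
    have e : al / kB ^ ord W b = (al * b * (σ t ^ ord W b)⁻¹ / (b * (t ^ ord W b)⁻¹)) *
        (σ t / (kB * t)) ^ ord W b := by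
      rw [div_zpow, mul_zpow]
      exact T2_grp _ _ _ _ _
    rw [e]
    exact mul_mem c2 (zpow_mem c1 _)
  have hv1 : W.valuation B ((kB ^ ord W b : Bˣ) : B) = 1 := by
    rw [Units.val_zpow_eq_zpow_val, map_zpow₀]
    show (W.valuation B (κ : B)) ^ _ = 1
    rw [hvκ, one_zpow]
  have c4 := T2_div' _ _ _ hv1 c3
  have c5 : W.valuation B (algebraMap L B ((ξ : L) - (κ : L) ^ ord W b)) < 1 := by
    have e : algebraMap L B ((ξ : L) - (κ : L) ^ ord W b) =
        ((al : B) - ((kB ^ ord W b : Bˣ) : B)) - ((al : B) - algebraMap L B (ξ : L)) := by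
      rw [map_sub, map_zpow₀, map_intCast, Units.val_zpow_eq_zpow_val]
      show _ - (κ : B) ^ _ = ((al : B) - (κ : B) ^ _) - _
      ring
    rw [e]
    exact (W.valuation B).map_sub_lt c4 hξ
  have hp := v.isPrime
  have hWp := W.isPrime
  have hl : W.asIdeal.LiesOver v.asIdeal := (BF2_mem v W hW).2
  have h6 := HeightOneSpectrum.valuation_liesOver B v W ((ξ : L) - (κ : L) ^ ord W b)
  rw [← h6] at c5
  by_contra hc
  push Not at hc
  exact absurd c5 (not_lt.2 (one_le_pow₀ hc))

end H55K.Ab
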