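import Mathlib
import Pool.Agent.Lib.H55K.A.Defs
import Pool.Agent.Lib.H55K.A.T1
import Pool.Agent.Lib.H55K.A.T2

/-!
Chunk T3 (M). The relation of Thaine and Kolyvagin.
theta_three: for v above 3 with σ v = v, σ ≠ 1: θ v = θ (σ v) = χ σ θ v and χ σ ≠ 1 (χ injective), so θ v = 0.
PROOF of thaine. h a generator of Gal(B/L) (Aux.cyc), b from hilb, c = nrm L B b ∈ Lˣ. For v not above 3 and not conjugate to Q: by ord_nrm (Aux.unit: the primes above v are not above 3) and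
Aux.unr, ord v c = (N Q - 1) ord W b, divisible by l, so (ord v c : k) = 0. For v = σ Q: not above 3 (hQ3 and Galois), Aux.ram: ord v c = ord W b =: j σ, W the prime above.
IsTh.princ for c: the sum over v; terms outside the conjugates of Q vanish (theta_three above 3), the conjugates σ Q are distinct (hinj), so sum_σ (j σ : k) χ σ θ Q = 0, hence
(*) sum_σ (j σ : k) χ σ = 0 if θ Q ≠ 0. By tame_res with κ = κ h: (σ Q).valuation (ξ - κ^(j σ)) < 1 and (σ Q).valuation κ = 1. Apply σ⁻¹ (valuation at σ⁻¹ σ Q = Q of σ⁻¹ x = valuation at σ Q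
of x: ord_smul / BF1_val, treat 0 separately): Q.valuation (gu σ⁻¹ ξ - κ^(j σ)) < 1, so gu σ⁻¹ ξ / κ^(j σ) is congruent to 1 modulo Q (Q.valuation κ = 1).
eta χ ρ a ξ = prod_σ (gu σ ξ)^(cf χ ρ a σ) is congruent to κ^E, E = sum_σ cf χ ρ a σ * j σ⁻¹ (multiplicative congruence). In ZMod l: E = sum_σ ρ(a χ(σ)⁻¹) j σ⁻¹ = ρ(a sum_σ (j σ) χ σ) = 0 by (*)
(ρ additive: ρ(n • x) = n • ρ x). So E = l s and eta χ ρ a ξ is congruent to (κ^s)^l: PowMod with z = κ^s (κ ≠ 0 because its valuation is 1).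
-/

open NumberField IsDedekindDomain

namespace H55K.Ab

open H55R

variable {F : Type} [Field F] [NumberField F]

section T3

theorem T3_zpow {ι A : Type*} [CommGroup A] (s : Finset ι) (f : ι → ℤ) (x : A) :
    ∏ i ∈ s, x ^ f i = x ^ ∑ i ∈ s, f i := by
  classical
  induction s using Finset.induction_on with
  | empty => simp
  | insert i s hi ih => rw [Finset.prod_insert hi, Finset.sum_insert hi, ih, zpow_add]

variable {L : Type} [Field L] [NumberField L] [Algebra F L]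

theorem T3_val (σ : Gal(L/F)) (Q : Pl L) (x : L) :
    Q.valuation L (σ⁻¹ x) = (smulP σ Q).valuation L x := by
  by_cases hx : x = 0
  · rw [hx, map_zero, map_zero, map_zero]
  · let u : Lˣ := Units.mk0 x hx
    have h1 := ord_smul σ⁻¹ (smulP σ Q) u
    rw [← smulP_mul, inv_mul_cancel, smulP_one] at h1
    have h2 := BF1_val Q (Units.map ((σ⁻¹ : L ≃ₐ[F] L) : L →* L) u)
    rw [h1, ← BF1_val (smulP σ Q) u] at h2
    exact h2

/-- The exponents and the congruences. -/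
theorem T3_aux [IsGalois F L] (Q : Pl L) (ξ : Lˣ) {B : Type} [Field B]
    [NumberField B] [Algebra L B] {κ : Gal(B/L) → ℤ} {t al : Bˣ} (haux : Aux F L Q ξ B κ t al) :
    ∃ (c : Lˣ) (j : Gal(L/F) → ℤ) (kL : Lˣ),
      (∀ v : Pl L, (∀ σ : Gal(L/F), v ≠ smulP σ Q) →
        ((Ideal.absNorm Q.asIdeal - 1 : ℕ) : ℤ) ∣ ord v c) ∧
      (∀ σ : Gal(L/F), ord (smulP σ Q) c = j σ) ∧
      (∀ σ : Gal(L/F), gu σ⁻¹ ξ / kL ^ j σ ∈ T2_U (Q.valuation L)) := by
  have hgal := haux.gal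
  have hcyc := haux.cyc
  obtain ⟨h, hh⟩ := IsCyclic.exists_generator (α := Gal(B/L))
  obtain ⟨b, hb⟩ := hilb h hh al haux.norm
  have hcard : (0 : ℤ) < (Nat.card Gal(B/L) : ℤ) := by exact_mod_cast Nat.card_pos
  choose W hW using fun σ : Gal(L/F) => under_exists (L := B) (smulP σ Q)
  have hr : ∀ σ : Gal(L/F), es L B (smulP σ Q) = Nat.card Gal(B/L) := fun σ => by
    rw [haux.ram σ, haux.card]
  have key := fun σ : Gal(L/F) => tame_res (smulP σ Q) (W σ) (hW σ) (hr σ) h al b t hb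
    (haux.unif σ (W σ) (hW σ)) (κ h) (haux.tame σ (W σ) (hW σ) h) ξ (haux.congr σ (W σ) (hW σ))
  have hκ0 : (κ h : L) ≠ 0 := by
    intro h0
    have := (key 1).1
    rw [h0, map_zero] at this
    exact zero_ne_one this
  refine ⟨nrm L B b, fun σ => ord (W σ) b, Units.mk0 _ hκ0, ?_, ?_, ?_⟩
  · intro v hvc
    obtain ⟨W', hW'⟩ := under_exists (L := B) v
    have h1 := ord_nrm h hh al b hb v (fun W _ => haux.unit W) W' hW'
    rw [haux.unr v hvc, Nat.cast_one, one_mul, haux.card] at h1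
    exact ⟨_, h1⟩
  · intro σ
    have h1 := ord_nrm h hh al b hb (smulP σ Q) (fun W _ => haux.unit W) (W σ) (hW σ)
    rw [hr σ] at h1
    exact mul_left_cancel₀ hcard.ne' h1
  · intro σ
    obtain ⟨h1, h2⟩ := key σ
    rw [← T3_val] at h1 h2
    rw [map_intCast] at h1
    have hv1 : Q.valuation L (((Units.mk0 _ hκ0 : Lˣ) ^ ord (W σ) b : Lˣ) : L) = 1 := by
      rw [Units.val_zpow_eq_zpow_val, map_zpow₀, Units.val_mk0, h1, one_zpow]
    apply T2_div
    rw [hv1]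
    have e : ((gu σ⁻¹ ξ : Lˣ) : L) - (((Units.mk0 _ hκ0 : Lˣ) ^ ord (W σ) b : Lˣ) : L) =
        σ⁻¹ ((ξ : L) - (κ h : L) ^ ord (W σ) b) := by
      rw [gu_apply, Units.val_zpow_eq_zpow_val, Units.val_mk0, map_sub, map_zpow₀, map_intCast]
    rw [e]
    exact h2

end T3

theorem thaine {L : Type} [Field L] [NumberField L] [Algebra F L] [IsGalois F L] {l : ℕ}
    [Fact l.Prime] {k : Type} [Field k] [CharP k l] {χ : Gal(L/F) →* kˣ}
    (hχ : Function.Bijective χ) (ρ : k →+ ZMod l)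
    (Q : Pl L) (hl : l ∣ Ideal.absNorm Q.asIdeal - 1)
    (hinj : Function.Injective fun σ : Gal(L/F) => smulP σ Q) (ξ : Lˣ) {B : Type} [Field B]
    [NumberField B] [Algebra L B] {κ : Gal(B/L) → ℤ} {t al : Bˣ} (haux : Aux F L Q ξ B κ t al)
    {θ : Pl L → k} (hθ : IsTh χ θ) (hQ : θ Q ≠ 0) (a : k) : PowMod l Q (eta χ ρ a ξ) := by
  classical
  obtain ⟨c, j, kL, hc1, hc2, hc3⟩ := T3_aux Q ξ haux
  -- the sum of the class group relation
  have hsum : ∑ σ : Gal(L/F), (j σ : k) * (χ σ : k) = 0 := by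
    have h1 := hθ.princ c
    have h2 : (Function.support fun v : Pl L => (ord v c : k) * θ v) ⊆
        ((Finset.univ.map ⟨fun σ : Gal(L/F) => smulP σ Q, hinj⟩ : Finset (Pl L)) : Set (Pl L)) := by
      intro v hv
      rw [Finset.coe_map, Finset.coe_univ, Set.image_univ]
      by_contra hcon
      apply hv
      have h4 := hc1 v fun σ h => hcon ⟨σ, h.symm⟩
      have h5 : (l : ℤ) ∣ ord v c := (Int.natCast_dvd_natCast.2 hl).trans h4
      show (ord v c : k) * θ v = 0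
      rw [(CharP.intCast_eq_zero_iff k l _).2 h5, zero_mul]
    rw [finsum_eq_sum_of_support_subset _ h2, Finset.sum_map] at h1
    have h6 : ∀ σ : Gal(L/F), (ord (smulP σ Q) c : k) * θ (smulP σ Q) =
        ((j σ : k) * (χ σ : k)) * θ Q := by
      intro σ
      rw [hc2, hθ.equiv]
      ring
    simp only [Function.Embedding.coeFn_mk] at h1
    rw [Finset.sum_congr rfl fun σ _ => h6 σ, ← Finset.sum_mul] at h1
    exact (mul_eq_zero.1 h1).resolve_right hQ
  -- the exponent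
  have hE : (l : ℤ) ∣ ∑ σ : Gal(L/F), j σ * cf χ ρ a σ⁻¹ := by
    rw [← ZMod.intCast_zmod_eq_zero_iff_dvd]
    push_cast
    have h1 : ∀ σ : Gal(L/F), (j σ : ZMod l) * ((cf χ ρ a σ⁻¹ : ℤ) : ZMod l) =
        ρ (a * ((j σ : k) * (χ σ : k))) := by
      intro σ
      unfold cf
      rw [map_inv, inv_inv, Int.cast_natCast, ZMod.natCast_val, ZMod.cast_id, ← zsmul_eq_mul, ← map_zsmul,
        zsmul_eq_mul]
      congr 1
      ring
    rw [Finset.sum_congr rfl fun σ _ => h1 σ, ← map_sum, ← Finset.mul_sum, hsum, mul_zero, map_zero]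
  obtain ⟨s, hs⟩ := hE
  refine ⟨kL ^ s, ?_⟩
  rw [← T2_mem]
  have h1 : eta χ ρ a ξ * ((kL ^ s) ^ l)⁻¹ =
      ∏ σ : Gal(L/F), (gu σ⁻¹ ξ / kL ^ j σ) ^ cf χ ρ a σ⁻¹ := by
    unfold eta pw
    rw [← Equiv.prod_comp (Equiv.inv Gal(L/F)), Finset.prod_congr rfl fun σ _ => div_zpow _ _ _,
      Finset.prod_div_distrib, div_eq_mul_inv]
    congr 2
    rw [Finset.prod_congr rfl fun σ _ => (zpow_mul kL (j σ) (cf χ ρ a σ⁻¹)).symm,
      T3_zpow, hs, ← zpow_natCast, ← zpow_mul, mul_comm]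
  rw [h1]
  exact prod_mem fun σ _ => zpow_mem (hc3 σ) _

end H55K.Ab
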