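import Mathlib
import Pool.Agent.Lib.H55K.A.B5
import Pool.Agent.Lib.H55K.A.C2
import Pool.Agent.Lib.H55K.A.D5
import Pool.Agent.Lib.H55K.A.T3

/-!
# H99B: the abstract theorem (assembly)
-/

open NumberField IsDedekindDomain

namespace H55K.Ab

open H55R

variable {F : Type} [Field F] [NumberField F]

theorem rho_ne {l : ℕ} [Fact l.Prime] {k : Type} [Field k] [Fintype k] [DecidableEq k]
    {ρ : k →+ ZMod l} (hρ : IsRho l ρ) : ρ ≠ 0 := by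
  rintro rfl
  have h := hρ.sum 1
  simp at h

/-- No equivariant homomorphism of the class group. -/
theorem no_theta {L : Type} [Field L] [NumberField L] [Algebra F L] [IsGalois F L] {l : ℕ}
    [Fact l.Prime] (h5 : 5 ≤ l) {k : Type} [Field k] [Fintype k] [DecidableEq k] [CharP k l]
    {χ : Gal(L/F) →* kˣ} (hχ : Function.Bijective χ) (ρ : k →+ ZMod l) (hρ : IsRho l ρ)
    (w : Pl L) (ξ : Lˣ) (hlev : ¬ Lev l w (eta χ ρ 1 ξ))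
    (bad : Set (Pl L)) (hbad : bad.Finite)
    (haux : ∀ Q : Pl L, Q ∉ bad → (Ideal.absNorm Q.asIdeal).Prime →
      l ∣ Ideal.absNorm Q.asIdeal - 1 → es F L (Q.under (𝓞 F)) = 1 →
      ∃ (B : Type) (_ : Field B) (_ : NumberField B) (_ : Algebra L B) (κ : Gal(B/L) → ℤ)
        (t al : Bˣ), Aux F L Q ξ B κ t al)
    (θ : Pl L → k) (hθ : IsTh χ θ) (v : Pl L) : θ v = 0 := by
  by_contra hv
  have hη : ¬ ∃ z : Lˣ, eta χ ρ 1 ξ = z ^ l := by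
    rintro ⟨z, hz⟩
    exact hlev (hz ▸ lev_pow z)
  obtain ⟨Q, hQ1, hQ2, hQ3, hQ4, hQ5, hQ6⟩ := select h5 ρ (rho_ne hρ) hθ ⟨v, hv⟩ (eta χ ρ 1 ξ) hη
    bad hbad
  obtain ⟨B, i1, i2, i3, κ, t, al, ha⟩ := haux Q hQ1 hQ2 hQ3 hQ4
  exact hQ6 (thaine hχ ρ Q hQ3 (stab_triv Q hQ2 hQ4) ξ ha hθ hQ5 1)

/-- THE ABSTRACT THEOREM. -/
theorem main_abs [H55P.IQ F] {L : Type} [Field L] [NumberField L] [Algebra F L] [IsGalois F L] {l : ℕ}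
    [Fact l.Prime] (h5 : 5 ≤ l) {k : Type} [Field k] [Fintype k] [DecidableEq k] [CharP k l]
    {χ : Gal(L/F) →* kˣ} (hχ : Function.Bijective χ) (ρ : k →+ ZMod l) (hρ : IsRho l ρ)
    (hcyc : ∀ ζ : Lˣ, IsPrimitiveRoot ζ l →
      ¬ ∀ (σ : Gal(L/F)) (n : ℕ), (n : k) = χ σ → gu σ ζ = ζ ^ n)
    (w : Pl L) (ξ : Lˣ) (hξ : ∀ v : Pl L, ord v ξ = 0)
    (hlev : ∀ a : k, a ≠ 0 → ¬ Lev l w (eta χ ρ a ξ))
    (bad : Set (Pl L)) (hbad : bad.Finite)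
    (haux : ∀ Q : Pl L, Q ∉ bad → (Ideal.absNorm Q.asIdeal).Prime →
      l ∣ Ideal.absNorm Q.asIdeal - 1 → es F L (Q.under (𝓞 F)) = 1 →
      ∃ (B : Type) (_ : Field B) (_ : NumberField B) (_ : Algebra L B) (κ : Gal(B/L) → ℤ)
        (t al : Bˣ), Aux F L Q ξ B κ t al)
    {m : k → Lˣ} (hm : EqHom l χ m) (hd : ∀ (a : k) (v : Pl L), (l : ℤ) ∣ ord v (m a))
    (hL : ∀ a, Lev l w (m a)) (a : k) : ∃ z : Lˣ, m a = z ^ l := by
  rcases class_step hχ ρ hρ hm hd with ⟨θ, hθ, v, hv⟩ | ⟨m', hm', hu, hmm⟩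
  · exact absurd (no_theta h5 hχ ρ hρ w ξ (hlev 1 one_ne_zero) bad hbad haux θ hθ v) hv
  · obtain ⟨z, hz⟩ := unit_step hχ ρ hρ hcyc w ξ hξ hlev hm' hu (fun b => by
      obtain ⟨y, hy⟩ := hmm b
      have h1 : m' b = m b * (y ^ l)⁻¹ := by rw [hy, mul_inv_cancel_right]
      rw [h1]
      exact lev_mul (hL b) (lev_inv (lev_pow y))) a
    obtain ⟨y, hy⟩ := hmm a
    exact ⟨z * y, by rw [hy, hz, mul_pow]⟩

end H55K.Ab
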